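import Pool.Agent.L7h49.PM.Def

set_option autoImplicit false

/-!
# Project PM (helper49): part PLA
-/

namespace Pool.Agent.L7h73.PM

open Pool.Agent.L7h49.PM

theorem pla1 {L C y0 y1 t0 t1 X Y : ℝ} (g : Good L C y0 y1 t0 t1) (i j : Fin 5) (hij : i ≠ j)
    (h : cr L C y0 y1 t0 t1 (6 * C) i X Y) (h' : cr L C y0 y1 t0 t1 (6 * C) j X Y) : False := by
  obtain ⟨g1, g2, g3, g4, g5, g6, g7, g8⟩ := g
  fin_cases i <;> fin_cases j <;> (try exact hij rfl) <;> simp only [cr, bx] at h h' <;>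
    (try rcases h with h | h | h) <;> (try rcases h' with h' | h' | h') <;>
    obtain ⟨a1, a2, a3, a4⟩ := h <;> obtain ⟨b1, b2, b3, b4⟩ := h' <;> linarith

theorem pla2 {L C y0 y1 t0 t1 X Y : ℝ} (g : Good L C y0 y1 t0 t1) (i j k : Fin 5) (hij : i < j)
    (hki : k ≠ i) (hkj : k ≠ j)
    (h : crW L C y0 y1 t0 t1 (6 * C) i j X Y) (h' : cr L C y0 y1 t0 t1 (6 * C) k X Y) : False := by
  obtain ⟨g1, g2, g3, g4, g5, g6, g7, g8⟩ := g
  fin_cases i <;> fin_cases j <;> (try (exact absurd hij (by decide))) <;> fin_cases k <;>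
    (try exact hki rfl) <;> (try exact hkj rfl) <;> simp only [cr, crW, bx, Reg] at h h' <;>
    (try rcases h' with h' | h' | h') <;> obtain ⟨b1, b2, b3, b4⟩ := h' <;>
    first
    | (rcases h with h | h | h <;> obtain ⟨a1, a2, a3, a4⟩ := h <;> linarith)
    | (obtain ⟨r1, r2, r3, r4, r5, r6, r7, r8⟩ := h
       first
       | linarith
       | (obtain ⟨c1, c2⟩ := r6 (by linarith); linarith)
       | (obtain ⟨c1, c2⟩ := r8 (by linarith); linarith))
    | (obtain ⟨a1, a2, a3, a4⟩ := h; linarith)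

theorem s_PLA : S_PLA := fun _ _ _ _ _ _ _ _ g =>
  ⟨fun i j hij h h' => pla1 g i j hij h h', fun i j k hij hki hkj h h' =>
    pla2 g i j k hij hki hkj h h'⟩

end Pool.Agent.L7h73.PM
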