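import Pool.Agent.L7h49.PM.Def

set_option autoImplicit false
set_option maxHeartbeats 4000000

/-!
# Project PM (helper49): part PLB
-/

namespace Pool.Agent.L7h73.PM

open Pool.Agent.L7h49.PM

/-- where a geodesic can be, three cases -/
theorem reg_cases {L C y t X Y : ℝ} (h : Reg L C y t X Y) :
    (-(7 * C) ≤ X ∧ X ≤ L + 7 * C ∧ -(4 / 5 * L) ≤ Y ∧ Y ≤ 4 / 5 * L) ∧
    ((X ≤ 6 * C ∧ -(30 * C) ≤ X ∧ y - 30 * C ≤ Y ∧ Y ≤ y + 30 * C) ∨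
     (L - 6 * C ≤ X ∧ X ≤ L + 30 * C ∧ t - 30 * C ≤ Y ∧ Y ≤ t + 30 * C) ∨
     (6 * C < X ∧ X < L - 6 * C ∧ 6 * C < X ∧ X < L - 6 * C)) := by
  obtain ⟨r1, r2, r3, r4, r5, r6, r7, r8⟩ := h
  refine ⟨⟨r1, r2, r3, r4⟩, ?_⟩
  by_cases h1 : X ≤ 6 * C
  · obtain ⟨a, b, c, d⟩ := r5 h1
    exact Or.inl ⟨h1, by linarith, c, d⟩
  · by_cases h2 : L - 6 * C ≤ X
    · obtain ⟨a, b, c, d⟩ := r7 h2
      exact Or.inr (Or.inl ⟨h2, b, c, d⟩)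
    · push Not at h1 h2
      exact Or.inr (Or.inr ⟨h1, h2, h1, h2⟩)

variable {L C y0 y1 t0 t1 X Y : ℝ}

theorem t01_02 (g : Good L C y0 y1 t0 t1) (h : crW L C y0 y1 t0 t1 (6 * C) 0 1 X Y)
    (h' : crW L C y0 y1 t0 t1 (6 * C) 0 2 X Y) :
    cr L C y0 y1 t0 t1 0 0 X Y ∨ cr L C y0 y1 t0 t1 0 1 X Y := by
  obtain ⟨g1, g2, g3, g4, g5, g6, g7, g8⟩ := g
  simp only [cr, crW, bx] at h h' ⊢
  obtain ⟨⟨b5, b6, b7, b8⟩, h'⟩ := reg_cases h'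
  rcases h with ⟨a1, a2, a3, a4⟩ <;> rcases h' with ⟨b1, b2, b3, b4⟩ | ⟨b1, b2, b3, b4⟩ | ⟨b1, b2, b3, b4⟩ <;>
    first
    | (exfalso; linarith)
    | (refine Or.inl ⟨?_, ?_, ?_, ?_⟩ <;> linarith)
    | (refine Or.inr ⟨?_, ?_, ?_, ?_⟩ <;> linarith)


theorem t01_03 (g : Good L C y0 y1 t0 t1) (h : crW L C y0 y1 t0 t1 (6 * C) 0 1 X Y)
    (h' : crW L C y0 y1 t0 t1 (6 * C) 0 3 X Y) :
    cr L C y0 y1 t0 t1 0 0 X Y ∨ cr L C y0 y1 t0 t1 0 1 X Y := by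
  obtain ⟨g1, g2, g3, g4, g5, g6, g7, g8⟩ := g
  simp only [cr, crW, bx] at h h' ⊢
  rcases h with ⟨a1, a2, a3, a4⟩ <;> rcases h' with ⟨b1, b2, b3, b4⟩ | ⟨b1, b2, b3, b4⟩ | ⟨b1, b2, b3, b4⟩ <;>
    first
    | (exfalso; linarith)
    | (refine Or.inl ⟨?_, ?_, ?_, ?_⟩ <;> linarith)
    | (refine Or.inr ⟨?_, ?_, ?_, ?_⟩ <;> linarith)


theorem t01_04 (g : Good L C y0 y1 t0 t1) (h : crW L C y0 y1 t0 t1 (6 * C) 0 1 X Y)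
    (h' : crW L C y0 y1 t0 t1 (6 * C) 0 4 X Y) :
    cr L C y0 y1 t0 t1 0 0 X Y ∨ cr L C y0 y1 t0 t1 0 1 X Y := by
  obtain ⟨g1, g2, g3, g4, g5, g6, g7, g8⟩ := g
  simp only [cr, crW, bx] at h h' ⊢
  rcases h with ⟨a1, a2, a3, a4⟩ <;> rcases h' with ⟨b1, b2, b3, b4⟩ <;>
    first
    | (exfalso; linarith)
    | (refine Or.inl ⟨?_, ?_, ?_, ?_⟩ <;> linarith)
    | (refine Or.inr ⟨?_, ?_, ?_, ?_⟩ <;> linarith)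


theorem t01_12 (g : Good L C y0 y1 t0 t1) (h : crW L C y0 y1 t0 t1 (6 * C) 0 1 X Y)
    (h' : crW L C y0 y1 t0 t1 (6 * C) 1 2 X Y) :
    cr L C y0 y1 t0 t1 0 0 X Y ∨ cr L C y0 y1 t0 t1 0 1 X Y := by
  obtain ⟨g1, g2, g3, g4, g5, g6, g7, g8⟩ := g
  simp only [cr, crW, bx] at h h' ⊢
  rcases h with ⟨a1, a2, a3, a4⟩ <;> rcases h' with ⟨b1, b2, b3, b4⟩ | ⟨b1, b2, b3, b4⟩ | ⟨b1, b2, b3, b4⟩ <;>
    first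
    | (exfalso; linarith)
    | (refine Or.inl ⟨?_, ?_, ?_, ?_⟩ <;> linarith)
    | (refine Or.inr ⟨?_, ?_, ?_, ?_⟩ <;> linarith)


theorem t01_13 (g : Good L C y0 y1 t0 t1) (h : crW L C y0 y1 t0 t1 (6 * C) 0 1 X Y)
    (h' : crW L C y0 y1 t0 t1 (6 * C) 1 3 X Y) :
    cr L C y0 y1 t0 t1 0 0 X Y ∨ cr L C y0 y1 t0 t1 0 1 X Y := by
  obtain ⟨g1, g2, g3, g4, g5, g6, g7, g8⟩ := g
  simp only [cr, crW, bx] at h h' ⊢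
  obtain ⟨⟨b5, b6, b7, b8⟩, h'⟩ := reg_cases h'
  rcases h with ⟨a1, a2, a3, a4⟩ <;> rcases h' with ⟨b1, b2, b3, b4⟩ | ⟨b1, b2, b3, b4⟩ | ⟨b1, b2, b3, b4⟩ <;>
    first
    | (exfalso; linarith)
    | (refine Or.inl ⟨?_, ?_, ?_, ?_⟩ <;> linarith)
    | (refine Or.inr ⟨?_, ?_, ?_, ?_⟩ <;> linarith)


theorem t01_14 (g : Good L C y0 y1 t0 t1) (h : crW L C y0 y1 t0 t1 (6 * C) 0 1 X Y)
    (h' : crW L C y0 y1 t0 t1 (6 * C) 1 4 X Y) :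
    cr L C y0 y1 t0 t1 0 0 X Y ∨ cr L C y0 y1 t0 t1 0 1 X Y := by
  obtain ⟨g1, g2, g3, g4, g5, g6, g7, g8⟩ := g
  simp only [cr, crW, bx] at h h' ⊢
  rcases h with ⟨a1, a2, a3, a4⟩ <;> rcases h' with ⟨b1, b2, b3, b4⟩ <;>
    first
    | (exfalso; linarith)
    | (refine Or.inl ⟨?_, ?_, ?_, ?_⟩ <;> linarith)
    | (refine Or.inr ⟨?_, ?_, ?_, ?_⟩ <;> linarith)


theorem t01_23 (g : Good L C y0 y1 t0 t1) (h : crW L C y0 y1 t0 t1 (6 * C) 0 1 X Y)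
    (h' : crW L C y0 y1 t0 t1 (6 * C) 2 3 X Y) :
    cr L C y0 y1 t0 t1 0 0 X Y ∨ cr L C y0 y1 t0 t1 0 1 X Y := by
  obtain ⟨g1, g2, g3, g4, g5, g6, g7, g8⟩ := g
  simp only [cr, crW, bx] at h h' ⊢
  rcases h with ⟨a1, a2, a3, a4⟩ <;> rcases h' with ⟨b1, b2, b3, b4⟩ <;>
    first
    | (exfalso; linarith)
    | (refine Or.inl ⟨?_, ?_, ?_, ?_⟩ <;> linarith)
    | (refine Or.inr ⟨?_, ?_, ?_, ?_⟩ <;> linarith)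


theorem t01_24 (g : Good L C y0 y1 t0 t1) (h : crW L C y0 y1 t0 t1 (6 * C) 0 1 X Y)
    (h' : crW L C y0 y1 t0 t1 (6 * C) 2 4 X Y) :
    cr L C y0 y1 t0 t1 0 0 X Y ∨ cr L C y0 y1 t0 t1 0 1 X Y := by
  obtain ⟨g1, g2, g3, g4, g5, g6, g7, g8⟩ := g
  simp only [cr, crW, bx] at h h' ⊢
  rcases h with ⟨a1, a2, a3, a4⟩ <;> rcases h' with ⟨b1, b2, b3, b4⟩ <;>
    first
    | (exfalso; linarith)
    | (refine Or.inl ⟨?_, ?_, ?_, ?_⟩ <;> linarith)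
    | (refine Or.inr ⟨?_, ?_, ?_, ?_⟩ <;> linarith)


theorem t01_34 (g : Good L C y0 y1 t0 t1) (h : crW L C y0 y1 t0 t1 (6 * C) 0 1 X Y)
    (h' : crW L C y0 y1 t0 t1 (6 * C) 3 4 X Y) :
    cr L C y0 y1 t0 t1 0 0 X Y ∨ cr L C y0 y1 t0 t1 0 1 X Y := by
  obtain ⟨g1, g2, g3, g4, g5, g6, g7, g8⟩ := g
  simp only [cr, crW, bx] at h h' ⊢
  rcases h with ⟨a1, a2, a3, a4⟩ <;> rcases h' with ⟨b1, b2, b3, b4⟩ <;>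
    first
    | (exfalso; linarith)
    | (refine Or.inl ⟨?_, ?_, ?_, ?_⟩ <;> linarith)
    | (refine Or.inr ⟨?_, ?_, ?_, ?_⟩ <;> linarith)


theorem t02_01 (g : Good L C y0 y1 t0 t1) (h : crW L C y0 y1 t0 t1 (6 * C) 0 2 X Y)
    (h' : crW L C y0 y1 t0 t1 (6 * C) 0 1 X Y) :
    cr L C y0 y1 t0 t1 0 0 X Y ∨ cr L C y0 y1 t0 t1 0 2 X Y := by
  obtain ⟨g1, g2, g3, g4, g5, g6, g7, g8⟩ := g
  simp only [cr, crW, bx] at h h' ⊢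
  obtain ⟨⟨a5, a6, a7, a8⟩, h⟩ := reg_cases h
  rcases h with ⟨a1, a2, a3, a4⟩ | ⟨a1, a2, a3, a4⟩ | ⟨a1, a2, a3, a4⟩ <;> rcases h' with ⟨b1, b2, b3, b4⟩ <;>
    first
    | (exfalso; linarith)
    | (refine Or.inl ⟨?_, ?_, ?_, ?_⟩ <;> linarith)
    | (refine Or.inr ⟨?_, ?_, ?_, ?_⟩ <;> linarith)


theorem t02_03 (g : Good L C y0 y1 t0 t1) (h : crW L C y0 y1 t0 t1 (6 * C) 0 2 X Y)
    (h' : crW L C y0 y1 t0 t1 (6 * C) 0 3 X Y) :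
    cr L C y0 y1 t0 t1 0 0 X Y ∨ cr L C y0 y1 t0 t1 0 2 X Y := by
  obtain ⟨g1, g2, g3, g4, g5, g6, g7, g8⟩ := g
  simp only [cr, crW, bx] at h h' ⊢
  obtain ⟨⟨a5, a6, a7, a8⟩, h⟩ := reg_cases h
  rcases h with ⟨a1, a2, a3, a4⟩ | ⟨a1, a2, a3, a4⟩ | ⟨a1, a2, a3, a4⟩ <;> rcases h' with ⟨b1, b2, b3, b4⟩ | ⟨b1, b2, b3, b4⟩ | ⟨b1, b2, b3, b4⟩ <;>
    first
    | (exfalso; linarith)
    | (refine Or.inl ⟨?_, ?_, ?_, ?_⟩ <;> linarith)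
    | (refine Or.inr ⟨?_, ?_, ?_, ?_⟩ <;> linarith)


theorem t02_04 (g : Good L C y0 y1 t0 t1) (h : crW L C y0 y1 t0 t1 (6 * C) 0 2 X Y)
    (h' : crW L C y0 y1 t0 t1 (6 * C) 0 4 X Y) :
    cr L C y0 y1 t0 t1 0 0 X Y ∨ cr L C y0 y1 t0 t1 0 2 X Y := by
  obtain ⟨g1, g2, g3, g4, g5, g6, g7, g8⟩ := g
  simp only [cr, crW, bx] at h h' ⊢
  obtain ⟨⟨a5, a6, a7, a8⟩, h⟩ := reg_cases h
  rcases h with ⟨a1, a2, a3, a4⟩ | ⟨a1, a2, a3, a4⟩ | ⟨a1, a2, a3, a4⟩ <;> rcases h' with ⟨b1, b2, b3, b4⟩ <;>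
    first
    | (exfalso; linarith)
    | (refine Or.inl ⟨?_, ?_, ?_, ?_⟩ <;> linarith)
    | (refine Or.inr ⟨?_, ?_, ?_, ?_⟩ <;> linarith)


theorem t02_12 (g : Good L C y0 y1 t0 t1) (h : crW L C y0 y1 t0 t1 (6 * C) 0 2 X Y)
    (h' : crW L C y0 y1 t0 t1 (6 * C) 1 2 X Y) :
    cr L C y0 y1 t0 t1 0 0 X Y ∨ cr L C y0 y1 t0 t1 0 2 X Y := by
  obtain ⟨g1, g2, g3, g4, g5, g6, g7, g8⟩ := g
  simp only [cr, crW, bx] at h h' ⊢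
  obtain ⟨⟨a5, a6, a7, a8⟩, h⟩ := reg_cases h
  rcases h with ⟨a1, a2, a3, a4⟩ | ⟨a1, a2, a3, a4⟩ | ⟨a1, a2, a3, a4⟩ <;> rcases h' with ⟨b1, b2, b3, b4⟩ | ⟨b1, b2, b3, b4⟩ | ⟨b1, b2, b3, b4⟩ <;>
    first
    | (exfalso; linarith)
    | (refine Or.inl ⟨?_, ?_, ?_, ?_⟩ <;> linarith)
    | (refine Or.inr ⟨?_, ?_, ?_, ?_⟩ <;> linarith)


theorem t02_14 (g : Good L C y0 y1 t0 t1) (h : crW L C y0 y1 t0 t1 (6 * C) 0 2 X Y)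
    (h' : crW L C y0 y1 t0 t1 (6 * C) 1 4 X Y) :
    cr L C y0 y1 t0 t1 0 0 X Y ∨ cr L C y0 y1 t0 t1 0 2 X Y := by
  obtain ⟨g1, g2, g3, g4, g5, g6, g7, g8⟩ := g
  simp only [cr, crW, bx] at h h' ⊢
  obtain ⟨⟨a5, a6, a7, a8⟩, h⟩ := reg_cases h
  rcases h with ⟨a1, a2, a3, a4⟩ | ⟨a1, a2, a3, a4⟩ | ⟨a1, a2, a3, a4⟩ <;> rcases h' with ⟨b1, b2, b3, b4⟩ <;>
    first
    | (exfalso; linarith)
    | (refine Or.inl ⟨?_, ?_, ?_, ?_⟩ <;> linarith)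
    | (refine Or.inr ⟨?_, ?_, ?_, ?_⟩ <;> linarith)


theorem t02_23 (g : Good L C y0 y1 t0 t1) (h : crW L C y0 y1 t0 t1 (6 * C) 0 2 X Y)
    (h' : crW L C y0 y1 t0 t1 (6 * C) 2 3 X Y) :
    cr L C y0 y1 t0 t1 0 0 X Y ∨ cr L C y0 y1 t0 t1 0 2 X Y := by
  obtain ⟨g1, g2, g3, g4, g5, g6, g7, g8⟩ := g
  simp only [cr, crW, bx] at h h' ⊢
  obtain ⟨⟨a5, a6, a7, a8⟩, h⟩ := reg_cases h
  rcases h with ⟨a1, a2, a3, a4⟩ | ⟨a1, a2, a3, a4⟩ | ⟨a1, a2, a3, a4⟩ <;> rcases h' with ⟨b1, b2, b3, b4⟩ <;>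
    first
    | (exfalso; linarith)
    | (refine Or.inl ⟨?_, ?_, ?_, ?_⟩ <;> linarith)
    | (refine Or.inr ⟨?_, ?_, ?_, ?_⟩ <;> linarith)


theorem t02_24 (g : Good L C y0 y1 t0 t1) (h : crW L C y0 y1 t0 t1 (6 * C) 0 2 X Y)
    (h' : crW L C y0 y1 t0 t1 (6 * C) 2 4 X Y) :
    cr L C y0 y1 t0 t1 0 0 X Y ∨ cr L C y0 y1 t0 t1 0 2 X Y := by
  obtain ⟨g1, g2, g3, g4, g5, g6, g7, g8⟩ := g
  simp only [cr, crW, bx] at h h' ⊢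
  obtain ⟨⟨a5, a6, a7, a8⟩, h⟩ := reg_cases h
  rcases h with ⟨a1, a2, a3, a4⟩ | ⟨a1, a2, a3, a4⟩ | ⟨a1, a2, a3, a4⟩ <;> rcases h' with ⟨b1, b2, b3, b4⟩ <;>
    first
    | (exfalso; linarith)
    | (refine Or.inl ⟨?_, ?_, ?_, ?_⟩ <;> linarith)
    | (refine Or.inr ⟨?_, ?_, ?_, ?_⟩ <;> linarith)


theorem t02_34 (g : Good L C y0 y1 t0 t1) (h : crW L C y0 y1 t0 t1 (6 * C) 0 2 X Y)
    (h' : crW L C y0 y1 t0 t1 (6 * C) 3 4 X Y) :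
    cr L C y0 y1 t0 t1 0 0 X Y ∨ cr L C y0 y1 t0 t1 0 2 X Y := by
  obtain ⟨g1, g2, g3, g4, g5, g6, g7, g8⟩ := g
  simp only [cr, crW, bx] at h h' ⊢
  obtain ⟨⟨a5, a6, a7, a8⟩, h⟩ := reg_cases h
  rcases h with ⟨a1, a2, a3, a4⟩ | ⟨a1, a2, a3, a4⟩ | ⟨a1, a2, a3, a4⟩ <;> rcases h' with ⟨b1, b2, b3, b4⟩ <;>
    first
    | (exfalso; linarith)
    | (refine Or.inl ⟨?_, ?_, ?_, ?_⟩ <;> linarith)
    | (refine Or.inr ⟨?_, ?_, ?_, ?_⟩ <;> linarith)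


theorem t03_01 (g : Good L C y0 y1 t0 t1) (h : crW L C y0 y1 t0 t1 (6 * C) 0 3 X Y)
    (h' : crW L C y0 y1 t0 t1 (6 * C) 0 1 X Y) :
    cr L C y0 y1 t0 t1 0 0 X Y ∨ cr L C y0 y1 t0 t1 0 3 X Y := by
  obtain ⟨g1, g2, g3, g4, g5, g6, g7, g8⟩ := g
  simp only [cr, crW, bx] at h h' ⊢
  rcases h with ⟨a1, a2, a3, a4⟩ | ⟨a1, a2, a3, a4⟩ | ⟨a1, a2, a3, a4⟩ <;> rcases h' with ⟨b1, b2, b3, b4⟩ <;>
    first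
    | (exfalso; linarith)
    | (refine Or.inl ⟨?_, ?_, ?_, ?_⟩ <;> linarith)
    | (refine Or.inr ⟨?_, ?_, ?_, ?_⟩ <;> linarith)


theorem t03_02 (g : Good L C y0 y1 t0 t1) (h : crW L C y0 y1 t0 t1 (6 * C) 0 3 X Y)
    (h' : crW L C y0 y1 t0 t1 (6 * C) 0 2 X Y) :
    cr L C y0 y1 t0 t1 0 0 X Y ∨ cr L C y0 y1 t0 t1 0 3 X Y := by
  obtain ⟨g1, g2, g3, g4, g5, g6, g7, g8⟩ := g
  simp only [cr, crW, bx] at h h' ⊢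
  obtain ⟨⟨b5, b6, b7, b8⟩, h'⟩ := reg_cases h'
  rcases h with ⟨a1, a2, a3, a4⟩ | ⟨a1, a2, a3, a4⟩ | ⟨a1, a2, a3, a4⟩ <;> rcases h' with ⟨b1, b2, b3, b4⟩ | ⟨b1, b2, b3, b4⟩ | ⟨b1, b2, b3, b4⟩ <;>
    first
    | (exfalso; linarith)
    | (refine Or.inl ⟨?_, ?_, ?_, ?_⟩ <;> linarith)
    | (refine Or.inr ⟨?_, ?_, ?_, ?_⟩ <;> linarith)


theorem t03_04 (g : Good L C y0 y1 t0 t1) (h : crW L C y0 y1 t0 t1 (6 * C) 0 3 X Y)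
    (h' : crW L C y0 y1 t0 t1 (6 * C) 0 4 X Y) :
    cr L C y0 y1 t0 t1 0 0 X Y ∨ cr L C y0 y1 t0 t1 0 3 X Y := by
  obtain ⟨g1, g2, g3, g4, g5, g6, g7, g8⟩ := g
  simp only [cr, crW, bx] at h h' ⊢
  rcases h with ⟨a1, a2, a3, a4⟩ | ⟨a1, a2, a3, a4⟩ | ⟨a1, a2, a3, a4⟩ <;> rcases h' with ⟨b1, b2, b3, b4⟩ <;>
    first
    | (exfalso; linarith)
    | (refine Or.inl ⟨?_, ?_, ?_, ?_⟩ <;> linarith)
    | (refine Or.inr ⟨?_, ?_, ?_, ?_⟩ <;> linarith)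


theorem t03_12 (g : Good L C y0 y1 t0 t1) (h : crW L C y0 y1 t0 t1 (6 * C) 0 3 X Y)
    (h' : crW L C y0 y1 t0 t1 (6 * C) 1 2 X Y) :
    cr L C y0 y1 t0 t1 0 0 X Y ∨ cr L C y0 y1 t0 t1 0 3 X Y := by
  obtain ⟨g1, g2, g3, g4, g5, g6, g7, g8⟩ := g
  simp only [cr, crW, bx] at h h' ⊢
  rcases h with ⟨a1, a2, a3, a4⟩ | ⟨a1, a2, a3, a4⟩ | ⟨a1, a2, a3, a4⟩ <;> rcases h' with ⟨b1, b2, b3, b4⟩ | ⟨b1, b2, b3, b4⟩ | ⟨b1, b2, b3, b4⟩ <;>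
    first
    | (exfalso; linarith)
    | (refine Or.inl ⟨?_, ?_, ?_, ?_⟩ <;> linarith)
    | (refine Or.inr ⟨?_, ?_, ?_, ?_⟩ <;> linarith)


theorem t03_13 (g : Good L C y0 y1 t0 t1) (h : crW L C y0 y1 t0 t1 (6 * C) 0 3 X Y)
    (h' : crW L C y0 y1 t0 t1 (6 * C) 1 3 X Y) :
    cr L C y0 y1 t0 t1 0 0 X Y ∨ cr L C y0 y1 t0 t1 0 3 X Y := by
  obtain ⟨g1, g2, g3, g4, g5, g6, g7, g8⟩ := g
  simp only [cr, crW, bx] at h h' ⊢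
  obtain ⟨⟨b5, b6, b7, b8⟩, h'⟩ := reg_cases h'
  rcases h with ⟨a1, a2, a3, a4⟩ | ⟨a1, a2, a3, a4⟩ | ⟨a1, a2, a3, a4⟩ <;> rcases h' with ⟨b1, b2, b3, b4⟩ | ⟨b1, b2, b3, b4⟩ | ⟨b1, b2, b3, b4⟩ <;>
    first
    | (exfalso; linarith)
    | (refine Or.inl ⟨?_, ?_, ?_, ?_⟩ <;> linarith)
    | (refine Or.inr ⟨?_, ?_, ?_, ?_⟩ <;> linarith)


theorem t03_14 (g : Good L C y0 y1 t0 t1) (h : crW L C y0 y1 t0 t1 (6 * C) 0 3 X Y)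
    (h' : crW L C y0 y1 t0 t1 (6 * C) 1 4 X Y) :
    cr L C y0 y1 t0 t1 0 0 X Y ∨ cr L C y0 y1 t0 t1 0 3 X Y := by
  obtain ⟨g1, g2, g3, g4, g5, g6, g7, g8⟩ := g
  simp only [cr, crW, bx] at h h' ⊢
  rcases h with ⟨a1, a2, a3, a4⟩ | ⟨a1, a2, a3, a4⟩ | ⟨a1, a2, a3, a4⟩ <;> rcases h' with ⟨b1, b2, b3, b4⟩ <;>
    first
    | (exfalso; linarith)
    | (refine Or.inl ⟨?_, ?_, ?_, ?_⟩ <;> linarith)
    | (refine Or.inr ⟨?_, ?_, ?_, ?_⟩ <;> linarith)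


theorem t03_23 (g : Good L C y0 y1 t0 t1) (h : crW L C y0 y1 t0 t1 (6 * C) 0 3 X Y)
    (h' : crW L C y0 y1 t0 t1 (6 * C) 2 3 X Y) :
    cr L C y0 y1 t0 t1 0 0 X Y ∨ cr L C y0 y1 t0 t1 0 3 X Y := by
  obtain ⟨g1, g2, g3, g4, g5, g6, g7, g8⟩ := g
  simp only [cr, crW, bx] at h h' ⊢
  rcases h with ⟨a1, a2, a3, a4⟩ | ⟨a1, a2, a3, a4⟩ | ⟨a1, a2, a3, a4⟩ <;> rcases h' with ⟨b1, b2, b3, b4⟩ <;>
    first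
    | (exfalso; linarith)
    | (refine Or.inl ⟨?_, ?_, ?_, ?_⟩ <;> linarith)
    | (refine Or.inr ⟨?_, ?_, ?_, ?_⟩ <;> linarith)


theorem t03_24 (g : Good L C y0 y1 t0 t1) (h : crW L C y0 y1 t0 t1 (6 * C) 0 3 X Y)
    (h' : crW L C y0 y1 t0 t1 (6 * C) 2 4 X Y) :
    cr L C y0 y1 t0 t1 0 0 X Y ∨ cr L C y0 y1 t0 t1 0 3 X Y := by
  obtain ⟨g1, g2, g3, g4, g5, g6, g7, g8⟩ := g
  simp only [cr, crW, bx] at h h' ⊢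
  rcases h with ⟨a1, a2, a3, a4⟩ | ⟨a1, a2, a3, a4⟩ | ⟨a1, a2, a3, a4⟩ <;> rcases h' with ⟨b1, b2, b3, b4⟩ <;>
    first
    | (exfalso; linarith)
    | (refine Or.inl ⟨?_, ?_, ?_, ?_⟩ <;> linarith)
    | (refine Or.inr ⟨?_, ?_, ?_, ?_⟩ <;> linarith)


theorem t03_34 (g : Good L C y0 y1 t0 t1) (h : crW L C y0 y1 t0 t1 (6 * C) 0 3 X Y)
    (h' : crW L C y0 y1 t0 t1 (6 * C) 3 4 X Y) :
    cr L C y0 y1 t0 t1 0 0 X Y ∨ cr L C y0 y1 t0 t1 0 3 X Y := by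
  obtain ⟨g1, g2, g3, g4, g5, g6, g7, g8⟩ := g
  simp only [cr, crW, bx] at h h' ⊢
  rcases h with ⟨a1, a2, a3, a4⟩ | ⟨a1, a2, a3, a4⟩ | ⟨a1, a2, a3, a4⟩ <;> rcases h' with ⟨b1, b2, b3, b4⟩ <;>
    first
    | (exfalso; linarith)
    | (refine Or.inl ⟨?_, ?_, ?_, ?_⟩ <;> linarith)
    | (refine Or.inr ⟨?_, ?_, ?_, ?_⟩ <;> linarith)


theorem t04_01 (g : Good L C y0 y1 t0 t1) (h : crW L C y0 y1 t0 t1 (6 * C) 0 4 X Y)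
    (h' : crW L C y0 y1 t0 t1 (6 * C) 0 1 X Y) :
    cr L C y0 y1 t0 t1 0 0 X Y ∨ cr L C y0 y1 t0 t1 0 4 X Y := by
  obtain ⟨g1, g2, g3, g4, g5, g6, g7, g8⟩ := g
  simp only [cr, crW, bx] at h h' ⊢
  rcases h with ⟨a1, a2, a3, a4⟩ <;> rcases h' with ⟨b1, b2, b3, b4⟩ <;>
    first
    | (exfalso; linarith)
    | (refine Or.inl ⟨?_, ?_, ?_, ?_⟩ <;> linarith)
    | (refine Or.inr ⟨?_, ?_, ?_, ?_⟩ <;> linarith)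


theorem t04_02 (g : Good L C y0 y1 t0 t1) (h : crW L C y0 y1 t0 t1 (6 * C) 0 4 X Y)
    (h' : crW L C y0 y1 t0 t1 (6 * C) 0 2 X Y) :
    cr L C y0 y1 t0 t1 0 0 X Y ∨ cr L C y0 y1 t0 t1 0 4 X Y := by
  obtain ⟨g1, g2, g3, g4, g5, g6, g7, g8⟩ := g
  simp only [cr, crW, bx] at h h' ⊢
  obtain ⟨⟨b5, b6, b7, b8⟩, h'⟩ := reg_cases h'
  rcases h with ⟨a1, a2, a3, a4⟩ <;> rcases h' with ⟨b1, b2, b3, b4⟩ | ⟨b1, b2, b3, b4⟩ | ⟨b1, b2, b3, b4⟩ <;>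
    first
    | (exfalso; linarith)
    | (refine Or.inl ⟨?_, ?_, ?_, ?_⟩ <;> linarith)
    | (refine Or.inr ⟨?_, ?_, ?_, ?_⟩ <;> linarith)


theorem t04_03 (g : Good L C y0 y1 t0 t1) (h : crW L C y0 y1 t0 t1 (6 * C) 0 4 X Y)
    (h' : crW L C y0 y1 t0 t1 (6 * C) 0 3 X Y) :
    cr L C y0 y1 t0 t1 0 0 X Y ∨ cr L C y0 y1 t0 t1 0 4 X Y := by
  obtain ⟨g1, g2, g3, g4, g5, g6, g7, g8⟩ := g
  simp only [cr, crW, bx] at h h' ⊢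
  rcases h with ⟨a1, a2, a3, a4⟩ <;> rcases h' with ⟨b1, b2, b3, b4⟩ | ⟨b1, b2, b3, b4⟩ | ⟨b1, b2, b3, b4⟩ <;>
    first
    | (exfalso; linarith)
    | (refine Or.inl ⟨?_, ?_, ?_, ?_⟩ <;> linarith)
    | (refine Or.inr ⟨?_, ?_, ?_, ?_⟩ <;> linarith)


theorem t04_12 (g : Good L C y0 y1 t0 t1) (h : crW L C y0 y1 t0 t1 (6 * C) 0 4 X Y)
    (h' : crW L C y0 y1 t0 t1 (6 * C) 1 2 X Y) :
    cr L C y0 y1 t0 t1 0 0 X Y ∨ cr L C y0 y1 t0 t1 0 4 X Y := by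
  obtain ⟨g1, g2, g3, g4, g5, g6, g7, g8⟩ := g
  simp only [cr, crW, bx] at h h' ⊢
  rcases h with ⟨a1, a2, a3, a4⟩ <;> rcases h' with ⟨b1, b2, b3, b4⟩ | ⟨b1, b2, b3, b4⟩ | ⟨b1, b2, b3, b4⟩ <;>
    first
    | (exfalso; linarith)
    | (refine Or.inl ⟨?_, ?_, ?_, ?_⟩ <;> linarith)
    | (refine Or.inr ⟨?_, ?_, ?_, ?_⟩ <;> linarith)


theorem t04_13 (g : Good L C y0 y1 t0 t1) (h : crW L C y0 y1 t0 t1 (6 * C) 0 4 X Y)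
    (h' : crW L C y0 y1 t0 t1 (6 * C) 1 3 X Y) :
    cr L C y0 y1 t0 t1 0 0 X Y ∨ cr L C y0 y1 t0 t1 0 4 X Y := by
  obtain ⟨g1, g2, g3, g4, g5, g6, g7, g8⟩ := g
  simp only [cr, crW, bx] at h h' ⊢
  obtain ⟨⟨b5, b6, b7, b8⟩, h'⟩ := reg_cases h'
  rcases h with ⟨a1, a2, a3, a4⟩ <;> rcases h' with ⟨b1, b2, b3, b4⟩ | ⟨b1, b2, b3, b4⟩ | ⟨b1, b2, b3, b4⟩ <;>
    first
    | (exfalso; linarith)
    | (refine Or.inl ⟨?_, ?_, ?_, ?_⟩ <;> linarith)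
    | (refine Or.inr ⟨?_, ?_, ?_, ?_⟩ <;> linarith)


theorem t04_14 (g : Good L C y0 y1 t0 t1) (h : crW L C y0 y1 t0 t1 (6 * C) 0 4 X Y)
    (h' : crW L C y0 y1 t0 t1 (6 * C) 1 4 X Y) :
    cr L C y0 y1 t0 t1 0 0 X Y ∨ cr L C y0 y1 t0 t1 0 4 X Y := by
  obtain ⟨g1, g2, g3, g4, g5, g6, g7, g8⟩ := g
  simp only [cr, crW, bx] at h h' ⊢
  rcases h with ⟨a1, a2, a3, a4⟩ <;> rcases h' with ⟨b1, b2, b3, b4⟩ <;>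
    first
    | (exfalso; linarith)
    | (refine Or.inl ⟨?_, ?_, ?_, ?_⟩ <;> linarith)
    | (refine Or.inr ⟨?_, ?_, ?_, ?_⟩ <;> linarith)


theorem t04_23 (g : Good L C y0 y1 t0 t1) (h : crW L C y0 y1 t0 t1 (6 * C) 0 4 X Y)
    (h' : crW L C y0 y1 t0 t1 (6 * C) 2 3 X Y) :
    cr L C y0 y1 t0 t1 0 0 X Y ∨ cr L C y0 y1 t0 t1 0 4 X Y := by
  obtain ⟨g1, g2, g3, g4, g5, g6, g7, g8⟩ := g
  simp only [cr, crW, bx] at h h' ⊢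
  rcases h with ⟨a1, a2, a3, a4⟩ <;> rcases h' with ⟨b1, b2, b3, b4⟩ <;>
    first
    | (exfalso; linarith)
    | (refine Or.inl ⟨?_, ?_, ?_, ?_⟩ <;> linarith)
    | (refine Or.inr ⟨?_, ?_, ?_, ?_⟩ <;> linarith)


theorem t04_24 (g : Good L C y0 y1 t0 t1) (h : crW L C y0 y1 t0 t1 (6 * C) 0 4 X Y)
    (h' : crW L C y0 y1 t0 t1 (6 * C) 2 4 X Y) :
    cr L C y0 y1 t0 t1 0 0 X Y ∨ cr L C y0 y1 t0 t1 0 4 X Y := by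
  obtain ⟨g1, g2, g3, g4, g5, g6, g7, g8⟩ := g
  simp only [cr, crW, bx] at h h' ⊢
  rcases h with ⟨a1, a2, a3, a4⟩ <;> rcases h' with ⟨b1, b2, b3, b4⟩ <;>
    first
    | (exfalso; linarith)
    | (refine Or.inl ⟨?_, ?_, ?_, ?_⟩ <;> linarith)
    | (refine Or.inr ⟨?_, ?_, ?_, ?_⟩ <;> linarith)


theorem t04_34 (g : Good L C y0 y1 t0 t1) (h : crW L C y0 y1 t0 t1 (6 * C) 0 4 X Y)
    (h' : crW L C y0 y1 t0 t1 (6 * C) 3 4 X Y) :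
    cr L C y0 y1 t0 t1 0 0 X Y ∨ cr L C y0 y1 t0 t1 0 4 X Y := by
  obtain ⟨g1, g2, g3, g4, g5, g6, g7, g8⟩ := g
  simp only [cr, crW, bx] at h h' ⊢
  rcases h with ⟨a1, a2, a3, a4⟩ <;> rcases h' with ⟨b1, b2, b3, b4⟩ <;>
    first
    | (exfalso; linarith)
    | (refine Or.inl ⟨?_, ?_, ?_, ?_⟩ <;> linarith)
    | (refine Or.inr ⟨?_, ?_, ?_, ?_⟩ <;> linarith)


theorem t12_01 (g : Good L C y0 y1 t0 t1) (h : crW L C y0 y1 t0 t1 (6 * C) 1 2 X Y)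
    (h' : crW L C y0 y1 t0 t1 (6 * C) 0 1 X Y) :
    cr L C y0 y1 t0 t1 0 1 X Y ∨ cr L C y0 y1 t0 t1 0 2 X Y := by
  obtain ⟨g1, g2, g3, g4, g5, g6, g7, g8⟩ := g
  simp only [cr, crW, bx] at h h' ⊢
  rcases h with ⟨a1, a2, a3, a4⟩ | ⟨a1, a2, a3, a4⟩ | ⟨a1, a2, a3, a4⟩ <;> rcases h' with ⟨b1, b2, b3, b4⟩ <;>
    first
    | (exfalso; linarith)
    | (refine Or.inl ⟨?_, ?_, ?_, ?_⟩ <;> linarith)
    | (refine Or.inr ⟨?_, ?_, ?_, ?_⟩ <;> linarith)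


theorem t12_02 (g : Good L C y0 y1 t0 t1) (h : crW L C y0 y1 t0 t1 (6 * C) 1 2 X Y)
    (h' : crW L C y0 y1 t0 t1 (6 * C) 0 2 X Y) :
    cr L C y0 y1 t0 t1 0 1 X Y ∨ cr L C y0 y1 t0 t1 0 2 X Y := by
  obtain ⟨g1, g2, g3, g4, g5, g6, g7, g8⟩ := g
  simp only [cr, crW, bx] at h h' ⊢
  obtain ⟨⟨b5, b6, b7, b8⟩, h'⟩ := reg_cases h'
  rcases h with ⟨a1, a2, a3, a4⟩ | ⟨a1, a2, a3, a4⟩ | ⟨a1, a2, a3, a4⟩ <;> rcases h' with ⟨b1, b2, b3, b4⟩ | ⟨b1, b2, b3, b4⟩ | ⟨b1, b2, b3, b4⟩ <;>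
    first
    | (exfalso; linarith)
    | (refine Or.inl ⟨?_, ?_, ?_, ?_⟩ <;> linarith)
    | (refine Or.inr ⟨?_, ?_, ?_, ?_⟩ <;> linarith)


theorem t12_03 (g : Good L C y0 y1 t0 t1) (h : crW L C y0 y1 t0 t1 (6 * C) 1 2 X Y)
    (h' : crW L C y0 y1 t0 t1 (6 * C) 0 3 X Y) :
    cr L C y0 y1 t0 t1 0 1 X Y ∨ cr L C y0 y1 t0 t1 0 2 X Y := by
  obtain ⟨g1, g2, g3, g4, g5, g6, g7, g8⟩ := g
  simp only [cr, crW, bx] at h h' ⊢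
  rcases h with ⟨a1, a2, a3, a4⟩ | ⟨a1, a2, a3, a4⟩ | ⟨a1, a2, a3, a4⟩ <;> rcases h' with ⟨b1, b2, b3, b4⟩ | ⟨b1, b2, b3, b4⟩ | ⟨b1, b2, b3, b4⟩ <;>
    first
    | (exfalso; linarith)
    | (refine Or.inl ⟨?_, ?_, ?_, ?_⟩ <;> linarith)
    | (refine Or.inr ⟨?_, ?_, ?_, ?_⟩ <;> linarith)


theorem t12_04 (g : Good L C y0 y1 t0 t1) (h : crW L C y0 y1 t0 t1 (6 * C) 1 2 X Y)
    (h' : crW L C y0 y1 t0 t1 (6 * C) 0 4 X Y) :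
    cr L C y0 y1 t0 t1 0 1 X Y ∨ cr L C y0 y1 t0 t1 0 2 X Y := by
  obtain ⟨g1, g2, g3, g4, g5, g6, g7, g8⟩ := g
  simp only [cr, crW, bx] at h h' ⊢
  rcases h with ⟨a1, a2, a3, a4⟩ | ⟨a1, a2, a3, a4⟩ | ⟨a1, a2, a3, a4⟩ <;> rcases h' with ⟨b1, b2, b3, b4⟩ <;>
    first
    | (exfalso; linarith)
    | (refine Or.inl ⟨?_, ?_, ?_, ?_⟩ <;> linarith)
    | (refine Or.inr ⟨?_, ?_, ?_, ?_⟩ <;> linarith)


theorem t12_13 (g : Good L C y0 y1 t0 t1) (h : crW L C y0 y1 t0 t1 (6 * C) 1 2 X Y)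
    (h' : crW L C y0 y1 t0 t1 (6 * C) 1 3 X Y) :
    cr L C y0 y1 t0 t1 0 1 X Y ∨ cr L C y0 y1 t0 t1 0 2 X Y := by
  obtain ⟨g1, g2, g3, g4, g5, g6, g7, g8⟩ := g
  simp only [cr, crW, bx] at h h' ⊢
  obtain ⟨⟨b5, b6, b7, b8⟩, h'⟩ := reg_cases h'
  rcases h with ⟨a1, a2, a3, a4⟩ | ⟨a1, a2, a3, a4⟩ | ⟨a1, a2, a3, a4⟩ <;> rcases h' with ⟨b1, b2, b3, b4⟩ | ⟨b1, b2, b3, b4⟩ | ⟨b1, b2, b3, b4⟩ <;>
    first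
    | (exfalso; linarith)
    | (refine Or.inl ⟨?_, ?_, ?_, ?_⟩ <;> linarith)
    | (refine Or.inr ⟨?_, ?_, ?_, ?_⟩ <;> linarith)


theorem t12_14 (g : Good L C y0 y1 t0 t1) (h : crW L C y0 y1 t0 t1 (6 * C) 1 2 X Y)
    (h' : crW L C y0 y1 t0 t1 (6 * C) 1 4 X Y) :
    cr L C y0 y1 t0 t1 0 1 X Y ∨ cr L C y0 y1 t0 t1 0 2 X Y := by
  obtain ⟨g1, g2, g3, g4, g5, g6, g7, g8⟩ := g
  simp only [cr, crW, bx] at h h' ⊢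
  rcases h with ⟨a1, a2, a3, a4⟩ | ⟨a1, a2, a3, a4⟩ | ⟨a1, a2, a3, a4⟩ <;> rcases h' with ⟨b1, b2, b3, b4⟩ <;>
    first
    | (exfalso; linarith)
    | (refine Or.inl ⟨?_, ?_, ?_, ?_⟩ <;> linarith)
    | (refine Or.inr ⟨?_, ?_, ?_, ?_⟩ <;> linarith)


theorem t12_23 (g : Good L C y0 y1 t0 t1) (h : crW L C y0 y1 t0 t1 (6 * C) 1 2 X Y)
    (h' : crW L C y0 y1 t0 t1 (6 * C) 2 3 X Y) :
    cr L C y0 y1 t0 t1 0 1 X Y ∨ cr L C y0 y1 t0 t1 0 2 X Y := by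
  obtain ⟨g1, g2, g3, g4, g5, g6, g7, g8⟩ := g
  simp only [cr, crW, bx] at h h' ⊢
  rcases h with ⟨a1, a2, a3, a4⟩ | ⟨a1, a2, a3, a4⟩ | ⟨a1, a2, a3, a4⟩ <;> rcases h' with ⟨b1, b2, b3, b4⟩ <;>
    first
    | (exfalso; linarith)
    | (refine Or.inl ⟨?_, ?_, ?_, ?_⟩ <;> linarith)
    | (refine Or.inr ⟨?_, ?_, ?_, ?_⟩ <;> linarith)


theorem t12_24 (g : Good L C y0 y1 t0 t1) (h : crW L C y0 y1 t0 t1 (6 * C) 1 2 X Y)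
    (h' : crW L C y0 y1 t0 t1 (6 * C) 2 4 X Y) :
    cr L C y0 y1 t0 t1 0 1 X Y ∨ cr L C y0 y1 t0 t1 0 2 X Y := by
  obtain ⟨g1, g2, g3, g4, g5, g6, g7, g8⟩ := g
  simp only [cr, crW, bx] at h h' ⊢
  rcases h with ⟨a1, a2, a3, a4⟩ | ⟨a1, a2, a3, a4⟩ | ⟨a1, a2, a3, a4⟩ <;> rcases h' with ⟨b1, b2, b3, b4⟩ <;>
    first
    | (exfalso; linarith)
    | (refine Or.inl ⟨?_, ?_, ?_, ?_⟩ <;> linarith)
    | (refine Or.inr ⟨?_, ?_, ?_, ?_⟩ <;> linarith)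


theorem t12_34 (g : Good L C y0 y1 t0 t1) (h : crW L C y0 y1 t0 t1 (6 * C) 1 2 X Y)
    (h' : crW L C y0 y1 t0 t1 (6 * C) 3 4 X Y) :
    cr L C y0 y1 t0 t1 0 1 X Y ∨ cr L C y0 y1 t0 t1 0 2 X Y := by
  obtain ⟨g1, g2, g3, g4, g5, g6, g7, g8⟩ := g
  simp only [cr, crW, bx] at h h' ⊢
  rcases h with ⟨a1, a2, a3, a4⟩ | ⟨a1, a2, a3, a4⟩ | ⟨a1, a2, a3, a4⟩ <;> rcases h' with ⟨b1, b2, b3, b4⟩ <;>
    first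
    | (exfalso; linarith)
    | (refine Or.inl ⟨?_, ?_, ?_, ?_⟩ <;> linarith)
    | (refine Or.inr ⟨?_, ?_, ?_, ?_⟩ <;> linarith)


theorem t13_01 (g : Good L C y0 y1 t0 t1) (h : crW L C y0 y1 t0 t1 (6 * C) 1 3 X Y)
    (h' : crW L C y0 y1 t0 t1 (6 * C) 0 1 X Y) :
    cr L C y0 y1 t0 t1 0 1 X Y ∨ cr L C y0 y1 t0 t1 0 3 X Y := by
  obtain ⟨g1, g2, g3, g4, g5, g6, g7, g8⟩ := g
  simp only [cr, crW, bx] at h h' ⊢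
  obtain ⟨⟨a5, a6, a7, a8⟩, h⟩ := reg_cases h
  rcases h with ⟨a1, a2, a3, a4⟩ | ⟨a1, a2, a3, a4⟩ | ⟨a1, a2, a3, a4⟩ <;> rcases h' with ⟨b1, b2, b3, b4⟩ <;>
    first
    | (exfalso; linarith)
    | (refine Or.inl ⟨?_, ?_, ?_, ?_⟩ <;> linarith)
    | (refine Or.inr ⟨?_, ?_, ?_, ?_⟩ <;> linarith)


theorem t13_03 (g : Good L C y0 y1 t0 t1) (h : crW L C y0 y1 t0 t1 (6 * C) 1 3 X Y)
    (h' : crW L C y0 y1 t0 t1 (6 * C) 0 3 X Y) :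
    cr L C y0 y1 t0 t1 0 1 X Y ∨ cr L C y0 y1 t0 t1 0 3 X Y := by
  obtain ⟨g1, g2, g3, g4, g5, g6, g7, g8⟩ := g
  simp only [cr, crW, bx] at h h' ⊢
  obtain ⟨⟨a5, a6, a7, a8⟩, h⟩ := reg_cases h
  rcases h with ⟨a1, a2, a3, a4⟩ | ⟨a1, a2, a3, a4⟩ | ⟨a1, a2, a3, a4⟩ <;> rcases h' with ⟨b1, b2, b3, b4⟩ | ⟨b1, b2, b3, b4⟩ | ⟨b1, b2, b3, b4⟩ <;>
    first
    | (exfalso; linarith)
    | (refine Or.inl ⟨?_, ?_, ?_, ?_⟩ <;> linarith)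
    | (refine Or.inr ⟨?_, ?_, ?_, ?_⟩ <;> linarith)


theorem t13_04 (g : Good L C y0 y1 t0 t1) (h : crW L C y0 y1 t0 t1 (6 * C) 1 3 X Y)
    (h' : crW L C y0 y1 t0 t1 (6 * C) 0 4 X Y) :
    cr L C y0 y1 t0 t1 0 1 X Y ∨ cr L C y0 y1 t0 t1 0 3 X Y := by
  obtain ⟨g1, g2, g3, g4, g5, g6, g7, g8⟩ := g
  simp only [cr, crW, bx] at h h' ⊢
  obtain ⟨⟨a5, a6, a7, a8⟩, h⟩ := reg_cases h
  rcases h with ⟨a1, a2, a3, a4⟩ | ⟨a1, a2, a3, a4⟩ | ⟨a1, a2, a3, a4⟩ <;> rcases h' with ⟨b1, b2, b3, b4⟩ <;>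
    first
    | (exfalso; linarith)
    | (refine Or.inl ⟨?_, ?_, ?_, ?_⟩ <;> linarith)
    | (refine Or.inr ⟨?_, ?_, ?_, ?_⟩ <;> linarith)


theorem t13_12 (g : Good L C y0 y1 t0 t1) (h : crW L C y0 y1 t0 t1 (6 * C) 1 3 X Y)
    (h' : crW L C y0 y1 t0 t1 (6 * C) 1 2 X Y) :
    cr L C y0 y1 t0 t1 0 1 X Y ∨ cr L C y0 y1 t0 t1 0 3 X Y := by
  obtain ⟨g1, g2, g3, g4, g5, g6, g7, g8⟩ := g
  simp only [cr, crW, bx] at h h' ⊢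
  obtain ⟨⟨a5, a6, a7, a8⟩, h⟩ := reg_cases h
  rcases h with ⟨a1, a2, a3, a4⟩ | ⟨a1, a2, a3, a4⟩ | ⟨a1, a2, a3, a4⟩ <;> rcases h' with ⟨b1, b2, b3, b4⟩ | ⟨b1, b2, b3, b4⟩ | ⟨b1, b2, b3, b4⟩ <;>
    first
    | (exfalso; linarith)
    | (refine Or.inl ⟨?_, ?_, ?_, ?_⟩ <;> linarith)
    | (refine Or.inr ⟨?_, ?_, ?_, ?_⟩ <;> linarith)


theorem t13_14 (g : Good L C y0 y1 t0 t1) (h : crW L C y0 y1 t0 t1 (6 * C) 1 3 X Y)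
    (h' : crW L C y0 y1 t0 t1 (6 * C) 1 4 X Y) :
    cr L C y0 y1 t0 t1 0 1 X Y ∨ cr L C y0 y1 t0 t1 0 3 X Y := by
  obtain ⟨g1, g2, g3, g4, g5, g6, g7, g8⟩ := g
  simp only [cr, crW, bx] at h h' ⊢
  obtain ⟨⟨a5, a6, a7, a8⟩, h⟩ := reg_cases h
  rcases h with ⟨a1, a2, a3, a4⟩ | ⟨a1, a2, a3, a4⟩ | ⟨a1, a2, a3, a4⟩ <;> rcases h' with ⟨b1, b2, b3, b4⟩ <;>
    first
    | (exfalso; linarith)
    | (refine Or.inl ⟨?_, ?_, ?_, ?_⟩ <;> linarith)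
    | (refine Or.inr ⟨?_, ?_, ?_, ?_⟩ <;> linarith)


theorem t13_23 (g : Good L C y0 y1 t0 t1) (h : crW L C y0 y1 t0 t1 (6 * C) 1 3 X Y)
    (h' : crW L C y0 y1 t0 t1 (6 * C) 2 3 X Y) :
    cr L C y0 y1 t0 t1 0 1 X Y ∨ cr L C y0 y1 t0 t1 0 3 X Y := by
  obtain ⟨g1, g2, g3, g4, g5, g6, g7, g8⟩ := g
  simp only [cr, crW, bx] at h h' ⊢
  obtain ⟨⟨a5, a6, a7, a8⟩, h⟩ := reg_cases h
  rcases h with ⟨a1, a2, a3, a4⟩ | ⟨a1, a2, a3, a4⟩ | ⟨a1, a2, a3, a4⟩ <;> rcases h' with ⟨b1, b2, b3, b4⟩ <;>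
    first
    | (exfalso; linarith)
    | (refine Or.inl ⟨?_, ?_, ?_, ?_⟩ <;> linarith)
    | (refine Or.inr ⟨?_, ?_, ?_, ?_⟩ <;> linarith)


theorem t13_24 (g : Good L C y0 y1 t0 t1) (h : crW L C y0 y1 t0 t1 (6 * C) 1 3 X Y)
    (h' : crW L C y0 y1 t0 t1 (6 * C) 2 4 X Y) :
    cr L C y0 y1 t0 t1 0 1 X Y ∨ cr L C y0 y1 t0 t1 0 3 X Y := by
  obtain ⟨g1, g2, g3, g4, g5, g6, g7, g8⟩ := g
  simp only [cr, crW, bx] at h h' ⊢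
  obtain ⟨⟨a5, a6, a7, a8⟩, h⟩ := reg_cases h
  rcases h with ⟨a1, a2, a3, a4⟩ | ⟨a1, a2, a3, a4⟩ | ⟨a1, a2, a3, a4⟩ <;> rcases h' with ⟨b1, b2, b3, b4⟩ <;>
    first
    | (exfalso; linarith)
    | (refine Or.inl ⟨?_, ?_, ?_, ?_⟩ <;> linarith)
    | (refine Or.inr ⟨?_, ?_, ?_, ?_⟩ <;> linarith)


theorem t13_34 (g : Good L C y0 y1 t0 t1) (h : crW L C y0 y1 t0 t1 (6 * C) 1 3 X Y)
    (h' : crW L C y0 y1 t0 t1 (6 * C) 3 4 X Y) :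
    cr L C y0 y1 t0 t1 0 1 X Y ∨ cr L C y0 y1 t0 t1 0 3 X Y := by
  obtain ⟨g1, g2, g3, g4, g5, g6, g7, g8⟩ := g
  simp only [cr, crW, bx] at h h' ⊢
  obtain ⟨⟨a5, a6, a7, a8⟩, h⟩ := reg_cases h
  rcases h with ⟨a1, a2, a3, a4⟩ | ⟨a1, a2, a3, a4⟩ | ⟨a1, a2, a3, a4⟩ <;> rcases h' with ⟨b1, b2, b3, b4⟩ <;>
    first
    | (exfalso; linarith)
    | (refine Or.inl ⟨?_, ?_, ?_, ?_⟩ <;> linarith)
    | (refine Or.inr ⟨?_, ?_, ?_, ?_⟩ <;> linarith)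


theorem t14_01 (g : Good L C y0 y1 t0 t1) (h : crW L C y0 y1 t0 t1 (6 * C) 1 4 X Y)
    (h' : crW L C y0 y1 t0 t1 (6 * C) 0 1 X Y) :
    cr L C y0 y1 t0 t1 0 1 X Y ∨ cr L C y0 y1 t0 t1 0 4 X Y := by
  obtain ⟨g1, g2, g3, g4, g5, g6, g7, g8⟩ := g
  simp only [cr, crW, bx] at h h' ⊢
  rcases h with ⟨a1, a2, a3, a4⟩ <;> rcases h' with ⟨b1, b2, b3, b4⟩ <;>
    first
    | (exfalso; linarith)
    | (refine Or.inl ⟨?_, ?_, ?_, ?_⟩ <;> linarith)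
    | (refine Or.inr ⟨?_, ?_, ?_, ?_⟩ <;> linarith)


theorem t14_02 (g : Good L C y0 y1 t0 t1) (h : crW L C y0 y1 t0 t1 (6 * C) 1 4 X Y)
    (h' : crW L C y0 y1 t0 t1 (6 * C) 0 2 X Y) :
    cr L C y0 y1 t0 t1 0 1 X Y ∨ cr L C y0 y1 t0 t1 0 4 X Y := by
  obtain ⟨g1, g2, g3, g4, g5, g6, g7, g8⟩ := g
  simp only [cr, crW, bx] at h h' ⊢
  obtain ⟨⟨b5, b6, b7, b8⟩, h'⟩ := reg_cases h'
  rcases h with ⟨a1, a2, a3, a4⟩ <;> rcases h' with ⟨b1, b2, b3, b4⟩ | ⟨b1, b2, b3, b4⟩ | ⟨b1, b2, b3, b4⟩ <;>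
    first
    | (exfalso; linarith)
    | (refine Or.inl ⟨?_, ?_, ?_, ?_⟩ <;> linarith)
    | (refine Or.inr ⟨?_, ?_, ?_, ?_⟩ <;> linarith)


theorem t14_03 (g : Good L C y0 y1 t0 t1) (h : crW L C y0 y1 t0 t1 (6 * C) 1 4 X Y)
    (h' : crW L C y0 y1 t0 t1 (6 * C) 0 3 X Y) :
    cr L C y0 y1 t0 t1 0 1 X Y ∨ cr L C y0 y1 t0 t1 0 4 X Y := by
  obtain ⟨g1, g2, g3, g4, g5, g6, g7, g8⟩ := g
  simp only [cr, crW, bx] at h h' ⊢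
  rcases h with ⟨a1, a2, a3, a4⟩ <;> rcases h' with ⟨b1, b2, b3, b4⟩ | ⟨b1, b2, b3, b4⟩ | ⟨b1, b2, b3, b4⟩ <;>
    first
    | (exfalso; linarith)
    | (refine Or.inl ⟨?_, ?_, ?_, ?_⟩ <;> linarith)
    | (refine Or.inr ⟨?_, ?_, ?_, ?_⟩ <;> linarith)


theorem t14_04 (g : Good L C y0 y1 t0 t1) (h : crW L C y0 y1 t0 t1 (6 * C) 1 4 X Y)
    (h' : crW L C y0 y1 t0 t1 (6 * C) 0 4 X Y) :
    cr L C y0 y1 t0 t1 0 1 X Y ∨ cr L C y0 y1 t0 t1 0 4 X Y := by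
  obtain ⟨g1, g2, g3, g4, g5, g6, g7, g8⟩ := g
  simp only [cr, crW, bx] at h h' ⊢
  rcases h with ⟨a1, a2, a3, a4⟩ <;> rcases h' with ⟨b1, b2, b3, b4⟩ <;>
    first
    | (exfalso; linarith)
    | (refine Or.inl ⟨?_, ?_, ?_, ?_⟩ <;> linarith)
    | (refine Or.inr ⟨?_, ?_, ?_, ?_⟩ <;> linarith)


theorem t14_12 (g : Good L C y0 y1 t0 t1) (h : crW L C y0 y1 t0 t1 (6 * C) 1 4 X Y)
    (h' : crW L C y0 y1 t0 t1 (6 * C) 1 2 X Y) :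
    cr L C y0 y1 t0 t1 0 1 X Y ∨ cr L C y0 y1 t0 t1 0 4 X Y := by
  obtain ⟨g1, g2, g3, g4, g5, g6, g7, g8⟩ := g
  simp only [cr, crW, bx] at h h' ⊢
  rcases h with ⟨a1, a2, a3, a4⟩ <;> rcases h' with ⟨b1, b2, b3, b4⟩ | ⟨b1, b2, b3, b4⟩ | ⟨b1, b2, b3, b4⟩ <;>
    first
    | (exfalso; linarith)
    | (refine Or.inl ⟨?_, ?_, ?_, ?_⟩ <;> linarith)
    | (refine Or.inr ⟨?_, ?_, ?_, ?_⟩ <;> linarith)


theorem t14_13 (g : Good L C y0 y1 t0 t1) (h : crW L C y0 y1 t0 t1 (6 * C) 1 4 X Y)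
    (h' : crW L C y0 y1 t0 t1 (6 * C) 1 3 X Y) :
    cr L C y0 y1 t0 t1 0 1 X Y ∨ cr L C y0 y1 t0 t1 0 4 X Y := by
  obtain ⟨g1, g2, g3, g4, g5, g6, g7, g8⟩ := g
  simp only [cr, crW, bx] at h h' ⊢
  obtain ⟨⟨b5, b6, b7, b8⟩, h'⟩ := reg_cases h'
  rcases h with ⟨a1, a2, a3, a4⟩ <;> rcases h' with ⟨b1, b2, b3, b4⟩ | ⟨b1, b2, b3, b4⟩ | ⟨b1, b2, b3, b4⟩ <;>
    first
    | (exfalso; linarith)
    | (refine Or.inl ⟨?_, ?_, ?_, ?_⟩ <;> linarith)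
    | (refine Or.inr ⟨?_, ?_, ?_, ?_⟩ <;> linarith)


theorem t14_23 (g : Good L C y0 y1 t0 t1) (h : crW L C y0 y1 t0 t1 (6 * C) 1 4 X Y)
    (h' : crW L C y0 y1 t0 t1 (6 * C) 2 3 X Y) :
    cr L C y0 y1 t0 t1 0 1 X Y ∨ cr L C y0 y1 t0 t1 0 4 X Y := by
  obtain ⟨g1, g2, g3, g4, g5, g6, g7, g8⟩ := g
  simp only [cr, crW, bx] at h h' ⊢
  rcases h with ⟨a1, a2, a3, a4⟩ <;> rcases h' with ⟨b1, b2, b3, b4⟩ <;>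
    first
    | (exfalso; linarith)
    | (refine Or.inl ⟨?_, ?_, ?_, ?_⟩ <;> linarith)
    | (refine Or.inr ⟨?_, ?_, ?_, ?_⟩ <;> linarith)


theorem t14_24 (g : Good L C y0 y1 t0 t1) (h : crW L C y0 y1 t0 t1 (6 * C) 1 4 X Y)
    (h' : crW L C y0 y1 t0 t1 (6 * C) 2 4 X Y) :
    cr L C y0 y1 t0 t1 0 1 X Y ∨ cr L C y0 y1 t0 t1 0 4 X Y := by
  obtain ⟨g1, g2, g3, g4, g5, g6, g7, g8⟩ := g
  simp only [cr, crW, bx] at h h' ⊢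
  rcases h with ⟨a1, a2, a3, a4⟩ <;> rcases h' with ⟨b1, b2, b3, b4⟩ <;>
    first
    | (exfalso; linarith)
    | (refine Or.inl ⟨?_, ?_, ?_, ?_⟩ <;> linarith)
    | (refine Or.inr ⟨?_, ?_, ?_, ?_⟩ <;> linarith)


theorem t14_34 (g : Good L C y0 y1 t0 t1) (h : crW L C y0 y1 t0 t1 (6 * C) 1 4 X Y)
    (h' : crW L C y0 y1 t0 t1 (6 * C) 3 4 X Y) :
    cr L C y0 y1 t0 t1 0 1 X Y ∨ cr L C y0 y1 t0 t1 0 4 X Y := by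
  obtain ⟨g1, g2, g3, g4, g5, g6, g7, g8⟩ := g
  simp only [cr, crW, bx] at h h' ⊢
  rcases h with ⟨a1, a2, a3, a4⟩ <;> rcases h' with ⟨b1, b2, b3, b4⟩ <;>
    first
    | (exfalso; linarith)
    | (refine Or.inl ⟨?_, ?_, ?_, ?_⟩ <;> linarith)
    | (refine Or.inr ⟨?_, ?_, ?_, ?_⟩ <;> linarith)


theorem t23_01 (g : Good L C y0 y1 t0 t1) (h : crW L C y0 y1 t0 t1 (6 * C) 2 3 X Y)
    (h' : crW L C y0 y1 t0 t1 (6 * C) 0 1 X Y) :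
    cr L C y0 y1 t0 t1 0 2 X Y ∨ cr L C y0 y1 t0 t1 0 3 X Y := by
  obtain ⟨g1, g2, g3, g4, g5, g6, g7, g8⟩ := g
  simp only [cr, crW, bx] at h h' ⊢
  rcases h with ⟨a1, a2, a3, a4⟩ <;> rcases h' with ⟨b1, b2, b3, b4⟩ <;>
    first
    | (exfalso; linarith)
    | (refine Or.inl ⟨?_, ?_, ?_, ?_⟩ <;> linarith)
    | (refine Or.inr ⟨?_, ?_, ?_, ?_⟩ <;> linarith)


theorem t23_02 (g : Good L C y0 y1 t0 t1) (h : crW L C y0 y1 t0 t1 (6 * C) 2 3 X Y)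
    (h' : crW L C y0 y1 t0 t1 (6 * C) 0 2 X Y) :
    cr L C y0 y1 t0 t1 0 2 X Y ∨ cr L C y0 y1 t0 t1 0 3 X Y := by
  obtain ⟨g1, g2, g3, g4, g5, g6, g7, g8⟩ := g
  simp only [cr, crW, bx] at h h' ⊢
  obtain ⟨⟨b5, b6, b7, b8⟩, h'⟩ := reg_cases h'
  rcases h with ⟨a1, a2, a3, a4⟩ <;> rcases h' with ⟨b1, b2, b3, b4⟩ | ⟨b1, b2, b3, b4⟩ | ⟨b1, b2, b3, b4⟩ <;>
    first
    | (exfalso; linarith)
    | (refine Or.inl ⟨?_, ?_, ?_, ?_⟩ <;> linarith)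
    | (refine Or.inr ⟨?_, ?_, ?_, ?_⟩ <;> linarith)


theorem t23_03 (g : Good L C y0 y1 t0 t1) (h : crW L C y0 y1 t0 t1 (6 * C) 2 3 X Y)
    (h' : crW L C y0 y1 t0 t1 (6 * C) 0 3 X Y) :
    cr L C y0 y1 t0 t1 0 2 X Y ∨ cr L C y0 y1 t0 t1 0 3 X Y := by
  obtain ⟨g1, g2, g3, g4, g5, g6, g7, g8⟩ := g
  simp only [cr, crW, bx] at h h' ⊢
  rcases h with ⟨a1, a2, a3, a4⟩ <;> rcases h' with ⟨b1, b2, b3, b4⟩ | ⟨b1, b2, b3, b4⟩ | ⟨b1, b2, b3, b4⟩ <;>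
    first
    | (exfalso; linarith)
    | (refine Or.inl ⟨?_, ?_, ?_, ?_⟩ <;> linarith)
    | (refine Or.inr ⟨?_, ?_, ?_, ?_⟩ <;> linarith)


theorem t23_04 (g : Good L C y0 y1 t0 t1) (h : crW L C y0 y1 t0 t1 (6 * C) 2 3 X Y)
    (h' : crW L C y0 y1 t0 t1 (6 * C) 0 4 X Y) :
    cr L C y0 y1 t0 t1 0 2 X Y ∨ cr L C y0 y1 t0 t1 0 3 X Y := by
  obtain ⟨g1, g2, g3, g4, g5, g6, g7, g8⟩ := g
  simp only [cr, crW, bx] at h h' ⊢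
  rcases h with ⟨a1, a2, a3, a4⟩ <;> rcases h' with ⟨b1, b2, b3, b4⟩ <;>
    first
    | (exfalso; linarith)
    | (refine Or.inl ⟨?_, ?_, ?_, ?_⟩ <;> linarith)
    | (refine Or.inr ⟨?_, ?_, ?_, ?_⟩ <;> linarith)


theorem t23_12 (g : Good L C y0 y1 t0 t1) (h : crW L C y0 y1 t0 t1 (6 * C) 2 3 X Y)
    (h' : crW L C y0 y1 t0 t1 (6 * C) 1 2 X Y) :
    cr L C y0 y1 t0 t1 0 2 X Y ∨ cr L C y0 y1 t0 t1 0 3 X Y := by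
  obtain ⟨g1, g2, g3, g4, g5, g6, g7, g8⟩ := g
  simp only [cr, crW, bx] at h h' ⊢
  rcases h with ⟨a1, a2, a3, a4⟩ <;> rcases h' with ⟨b1, b2, b3, b4⟩ | ⟨b1, b2, b3, b4⟩ | ⟨b1, b2, b3, b4⟩ <;>
    first
    | (exfalso; linarith)
    | (refine Or.inl ⟨?_, ?_, ?_, ?_⟩ <;> linarith)
    | (refine Or.inr ⟨?_, ?_, ?_, ?_⟩ <;> linarith)


theorem t23_13 (g : Good L C y0 y1 t0 t1) (h : crW L C y0 y1 t0 t1 (6 * C) 2 3 X Y)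
    (h' : crW L C y0 y1 t0 t1 (6 * C) 1 3 X Y) :
    cr L C y0 y1 t0 t1 0 2 X Y ∨ cr L C y0 y1 t0 t1 0 3 X Y := by
  obtain ⟨g1, g2, g3, g4, g5, g6, g7, g8⟩ := g
  simp only [cr, crW, bx] at h h' ⊢
  obtain ⟨⟨b5, b6, b7, b8⟩, h'⟩ := reg_cases h'
  rcases h with ⟨a1, a2, a3, a4⟩ <;> rcases h' with ⟨b1, b2, b3, b4⟩ | ⟨b1, b2, b3, b4⟩ | ⟨b1, b2, b3, b4⟩ <;>
    first
    | (exfalso; linarith)
    | (refine Or.inl ⟨?_, ?_, ?_, ?_⟩ <;> linarith)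
    | (refine Or.inr ⟨?_, ?_, ?_, ?_⟩ <;> linarith)


theorem t23_14 (g : Good L C y0 y1 t0 t1) (h : crW L C y0 y1 t0 t1 (6 * C) 2 3 X Y)
    (h' : crW L C y0 y1 t0 t1 (6 * C) 1 4 X Y) :
    cr L C y0 y1 t0 t1 0 2 X Y ∨ cr L C y0 y1 t0 t1 0 3 X Y := by
  obtain ⟨g1, g2, g3, g4, g5, g6, g7, g8⟩ := g
  simp only [cr, crW, bx] at h h' ⊢
  rcases h with ⟨a1, a2, a3, a4⟩ <;> rcases h' with ⟨b1, b2, b3, b4⟩ <;>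
    first
    | (exfalso; linarith)
    | (refine Or.inl ⟨?_, ?_, ?_, ?_⟩ <;> linarith)
    | (refine Or.inr ⟨?_, ?_, ?_, ?_⟩ <;> linarith)


theorem t23_24 (g : Good L C y0 y1 t0 t1) (h : crW L C y0 y1 t0 t1 (6 * C) 2 3 X Y)
    (h' : crW L C y0 y1 t0 t1 (6 * C) 2 4 X Y) :
    cr L C y0 y1 t0 t1 0 2 X Y ∨ cr L C y0 y1 t0 t1 0 3 X Y := by
  obtain ⟨g1, g2, g3, g4, g5, g6, g7, g8⟩ := g
  simp only [cr, crW, bx] at h h' ⊢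
  rcases h with ⟨a1, a2, a3, a4⟩ <;> rcases h' with ⟨b1, b2, b3, b4⟩ <;>
    first
    | (exfalso; linarith)
    | (refine Or.inl ⟨?_, ?_, ?_, ?_⟩ <;> linarith)
    | (refine Or.inr ⟨?_, ?_, ?_, ?_⟩ <;> linarith)


theorem t23_34 (g : Good L C y0 y1 t0 t1) (h : crW L C y0 y1 t0 t1 (6 * C) 2 3 X Y)
    (h' : crW L C y0 y1 t0 t1 (6 * C) 3 4 X Y) :
    cr L C y0 y1 t0 t1 0 2 X Y ∨ cr L C y0 y1 t0 t1 0 3 X Y := by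
  obtain ⟨g1, g2, g3, g4, g5, g6, g7, g8⟩ := g
  simp only [cr, crW, bx] at h h' ⊢
  rcases h with ⟨a1, a2, a3, a4⟩ <;> rcases h' with ⟨b1, b2, b3, b4⟩ <;>
    first
    | (exfalso; linarith)
    | (refine Or.inl ⟨?_, ?_, ?_, ?_⟩ <;> linarith)
    | (refine Or.inr ⟨?_, ?_, ?_, ?_⟩ <;> linarith)


theorem t24_01 (g : Good L C y0 y1 t0 t1) (h : crW L C y0 y1 t0 t1 (6 * C) 2 4 X Y)
    (h' : crW L C y0 y1 t0 t1 (6 * C) 0 1 X Y) :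
    cr L C y0 y1 t0 t1 0 2 X Y ∨ cr L C y0 y1 t0 t1 0 4 X Y := by
  obtain ⟨g1, g2, g3, g4, g5, g6, g7, g8⟩ := g
  simp only [cr, crW, bx] at h h' ⊢
  rcases h with ⟨a1, a2, a3, a4⟩ <;> rcases h' with ⟨b1, b2, b3, b4⟩ <;>
    first
    | (exfalso; linarith)
    | (refine Or.inl ⟨?_, ?_, ?_, ?_⟩ <;> linarith)
    | (refine Or.inr ⟨?_, ?_, ?_, ?_⟩ <;> linarith)


theorem t24_02 (g : Good L C y0 y1 t0 t1) (h : crW L C y0 y1 t0 t1 (6 * C) 2 4 X Y)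
    (h' : crW L C y0 y1 t0 t1 (6 * C) 0 2 X Y) :
    cr L C y0 y1 t0 t1 0 2 X Y ∨ cr L C y0 y1 t0 t1 0 4 X Y := by
  obtain ⟨g1, g2, g3, g4, g5, g6, g7, g8⟩ := g
  simp only [cr, crW, bx] at h h' ⊢
  obtain ⟨⟨b5, b6, b7, b8⟩, h'⟩ := reg_cases h'
  rcases h with ⟨a1, a2, a3, a4⟩ <;> rcases h' with ⟨b1, b2, b3, b4⟩ | ⟨b1, b2, b3, b4⟩ | ⟨b1, b2, b3, b4⟩ <;>
    first
    | (exfalso; linarith)
    | (refine Or.inl ⟨?_, ?_, ?_, ?_⟩ <;> linarith)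
    | (refine Or.inr ⟨?_, ?_, ?_, ?_⟩ <;> linarith)


theorem t24_03 (g : Good L C y0 y1 t0 t1) (h : crW L C y0 y1 t0 t1 (6 * C) 2 4 X Y)
    (h' : crW L C y0 y1 t0 t1 (6 * C) 0 3 X Y) :
    cr L C y0 y1 t0 t1 0 2 X Y ∨ cr L C y0 y1 t0 t1 0 4 X Y := by
  obtain ⟨g1, g2, g3, g4, g5, g6, g7, g8⟩ := g
  simp only [cr, crW, bx] at h h' ⊢
  rcases h with ⟨a1, a2, a3, a4⟩ <;> rcases h' with ⟨b1, b2, b3, b4⟩ | ⟨b1, b2, b3, b4⟩ | ⟨b1, b2, b3, b4⟩ <;>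
    first
    | (exfalso; linarith)
    | (refine Or.inl ⟨?_, ?_, ?_, ?_⟩ <;> linarith)
    | (refine Or.inr ⟨?_, ?_, ?_, ?_⟩ <;> linarith)


theorem t24_04 (g : Good L C y0 y1 t0 t1) (h : crW L C y0 y1 t0 t1 (6 * C) 2 4 X Y)
    (h' : crW L C y0 y1 t0 t1 (6 * C) 0 4 X Y) :
    cr L C y0 y1 t0 t1 0 2 X Y ∨ cr L C y0 y1 t0 t1 0 4 X Y := by
  obtain ⟨g1, g2, g3, g4, g5, g6, g7, g8⟩ := g
  simp only [cr, crW, bx] at h h' ⊢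
  rcases h with ⟨a1, a2, a3, a4⟩ <;> rcases h' with ⟨b1, b2, b3, b4⟩ <;>
    first
    | (exfalso; linarith)
    | (refine Or.inl ⟨?_, ?_, ?_, ?_⟩ <;> linarith)
    | (refine Or.inr ⟨?_, ?_, ?_, ?_⟩ <;> linarith)


theorem t24_12 (g : Good L C y0 y1 t0 t1) (h : crW L C y0 y1 t0 t1 (6 * C) 2 4 X Y)
    (h' : crW L C y0 y1 t0 t1 (6 * C) 1 2 X Y) :
    cr L C y0 y1 t0 t1 0 2 X Y ∨ cr L C y0 y1 t0 t1 0 4 X Y := by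
  obtain ⟨g1, g2, g3, g4, g5, g6, g7, g8⟩ := g
  simp only [cr, crW, bx] at h h' ⊢
  rcases h with ⟨a1, a2, a3, a4⟩ <;> rcases h' with ⟨b1, b2, b3, b4⟩ | ⟨b1, b2, b3, b4⟩ | ⟨b1, b2, b3, b4⟩ <;>
    first
    | (exfalso; linarith)
    | (refine Or.inl ⟨?_, ?_, ?_, ?_⟩ <;> linarith)
    | (refine Or.inr ⟨?_, ?_, ?_, ?_⟩ <;> linarith)


theorem t24_13 (g : Good L C y0 y1 t0 t1) (h : crW L C y0 y1 t0 t1 (6 * C) 2 4 X Y)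
    (h' : crW L C y0 y1 t0 t1 (6 * C) 1 3 X Y) :
    cr L C y0 y1 t0 t1 0 2 X Y ∨ cr L C y0 y1 t0 t1 0 4 X Y := by
  obtain ⟨g1, g2, g3, g4, g5, g6, g7, g8⟩ := g
  simp only [cr, crW, bx] at h h' ⊢
  obtain ⟨⟨b5, b6, b7, b8⟩, h'⟩ := reg_cases h'
  rcases h with ⟨a1, a2, a3, a4⟩ <;> rcases h' with ⟨b1, b2, b3, b4⟩ | ⟨b1, b2, b3, b4⟩ | ⟨b1, b2, b3, b4⟩ <;>
    first
    | (exfalso; linarith)
    | (refine Or.inl ⟨?_, ?_, ?_, ?_⟩ <;> linarith)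
    | (refine Or.inr ⟨?_, ?_, ?_, ?_⟩ <;> linarith)


theorem t24_14 (g : Good L C y0 y1 t0 t1) (h : crW L C y0 y1 t0 t1 (6 * C) 2 4 X Y)
    (h' : crW L C y0 y1 t0 t1 (6 * C) 1 4 X Y) :
    cr L C y0 y1 t0 t1 0 2 X Y ∨ cr L C y0 y1 t0 t1 0 4 X Y := by
  obtain ⟨g1, g2, g3, g4, g5, g6, g7, g8⟩ := g
  simp only [cr, crW, bx] at h h' ⊢
  rcases h with ⟨a1, a2, a3, a4⟩ <;> rcases h' with ⟨b1, b2, b3, b4⟩ <;>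
    first
    | (exfalso; linarith)
    | (refine Or.inl ⟨?_, ?_, ?_, ?_⟩ <;> linarith)
    | (refine Or.inr ⟨?_, ?_, ?_, ?_⟩ <;> linarith)


theorem t24_23 (g : Good L C y0 y1 t0 t1) (h : crW L C y0 y1 t0 t1 (6 * C) 2 4 X Y)
    (h' : crW L C y0 y1 t0 t1 (6 * C) 2 3 X Y) :
    cr L C y0 y1 t0 t1 0 2 X Y ∨ cr L C y0 y1 t0 t1 0 4 X Y := by
  obtain ⟨g1, g2, g3, g4, g5, g6, g7, g8⟩ := g
  simp only [cr, crW, bx] at h h' ⊢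
  rcases h with ⟨a1, a2, a3, a4⟩ <;> rcases h' with ⟨b1, b2, b3, b4⟩ <;>
    first
    | (exfalso; linarith)
    | (refine Or.inl ⟨?_, ?_, ?_, ?_⟩ <;> linarith)
    | (refine Or.inr ⟨?_, ?_, ?_, ?_⟩ <;> linarith)


theorem t24_34 (g : Good L C y0 y1 t0 t1) (h : crW L C y0 y1 t0 t1 (6 * C) 2 4 X Y)
    (h' : crW L C y0 y1 t0 t1 (6 * C) 3 4 X Y) :
    cr L C y0 y1 t0 t1 0 2 X Y ∨ cr L C y0 y1 t0 t1 0 4 X Y := by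
  obtain ⟨g1, g2, g3, g4, g5, g6, g7, g8⟩ := g
  simp only [cr, crW, bx] at h h' ⊢
  rcases h with ⟨a1, a2, a3, a4⟩ <;> rcases h' with ⟨b1, b2, b3, b4⟩ <;>
    first
    | (exfalso; linarith)
    | (refine Or.inl ⟨?_, ?_, ?_, ?_⟩ <;> linarith)
    | (refine Or.inr ⟨?_, ?_, ?_, ?_⟩ <;> linarith)


theorem t34_01 (g : Good L C y0 y1 t0 t1) (h : crW L C y0 y1 t0 t1 (6 * C) 3 4 X Y)
    (h' : crW L C y0 y1 t0 t1 (6 * C) 0 1 X Y) :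
    cr L C y0 y1 t0 t1 0 3 X Y ∨ cr L C y0 y1 t0 t1 0 4 X Y := by
  obtain ⟨g1, g2, g3, g4, g5, g6, g7, g8⟩ := g
  simp only [cr, crW, bx] at h h' ⊢
  rcases h with ⟨a1, a2, a3, a4⟩ <;> rcases h' with ⟨b1, b2, b3, b4⟩ <;>
    first
    | (exfalso; linarith)
    | (refine Or.inl ⟨?_, ?_, ?_, ?_⟩ <;> linarith)
    | (refine Or.inr ⟨?_, ?_, ?_, ?_⟩ <;> linarith)


theorem t34_02 (g : Good L C y0 y1 t0 t1) (h : crW L C y0 y1 t0 t1 (6 * C) 3 4 X Y)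
    (h' : crW L C y0 y1 t0 t1 (6 * C) 0 2 X Y) :
    cr L C y0 y1 t0 t1 0 3 X Y ∨ cr L C y0 y1 t0 t1 0 4 X Y := by
  obtain ⟨g1, g2, g3, g4, g5, g6, g7, g8⟩ := g
  simp only [cr, crW, bx] at h h' ⊢
  obtain ⟨⟨b5, b6, b7, b8⟩, h'⟩ := reg_cases h'
  rcases h with ⟨a1, a2, a3, a4⟩ <;> rcases h' with ⟨b1, b2, b3, b4⟩ | ⟨b1, b2, b3, b4⟩ | ⟨b1, b2, b3, b4⟩ <;>
    first
    | (exfalso; linarith)
    | (refine Or.inl ⟨?_, ?_, ?_, ?_⟩ <;> linarith)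
    | (refine Or.inr ⟨?_, ?_, ?_, ?_⟩ <;> linarith)


theorem t34_03 (g : Good L C y0 y1 t0 t1) (h : crW L C y0 y1 t0 t1 (6 * C) 3 4 X Y)
    (h' : crW L C y0 y1 t0 t1 (6 * C) 0 3 X Y) :
    cr L C y0 y1 t0 t1 0 3 X Y ∨ cr L C y0 y1 t0 t1 0 4 X Y := by
  obtain ⟨g1, g2, g3, g4, g5, g6, g7, g8⟩ := g
  simp only [cr, crW, bx] at h h' ⊢
  rcases h with ⟨a1, a2, a3, a4⟩ <;> rcases h' with ⟨b1, b2, b3, b4⟩ | ⟨b1, b2, b3, b4⟩ | ⟨b1, b2, b3, b4⟩ <;>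
    first
    | (exfalso; linarith)
    | (refine Or.inl ⟨?_, ?_, ?_, ?_⟩ <;> linarith)
    | (refine Or.inr ⟨?_, ?_, ?_, ?_⟩ <;> linarith)


theorem t34_04 (g : Good L C y0 y1 t0 t1) (h : crW L C y0 y1 t0 t1 (6 * C) 3 4 X Y)
    (h' : crW L C y0 y1 t0 t1 (6 * C) 0 4 X Y) :
    cr L C y0 y1 t0 t1 0 3 X Y ∨ cr L C y0 y1 t0 t1 0 4 X Y := by
  obtain ⟨g1, g2, g3, g4, g5, g6, g7, g8⟩ := g
  simp only [cr, crW, bx] at h h' ⊢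
  rcases h with ⟨a1, a2, a3, a4⟩ <;> rcases h' with ⟨b1, b2, b3, b4⟩ <;>
    first
    | (exfalso; linarith)
    | (refine Or.inl ⟨?_, ?_, ?_, ?_⟩ <;> linarith)
    | (refine Or.inr ⟨?_, ?_, ?_, ?_⟩ <;> linarith)


theorem t34_12 (g : Good L C y0 y1 t0 t1) (h : crW L C y0 y1 t0 t1 (6 * C) 3 4 X Y)
    (h' : crW L C y0 y1 t0 t1 (6 * C) 1 2 X Y) :
    cr L C y0 y1 t0 t1 0 3 X Y ∨ cr L C y0 y1 t0 t1 0 4 X Y := by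
  obtain ⟨g1, g2, g3, g4, g5, g6, g7, g8⟩ := g
  simp only [cr, crW, bx] at h h' ⊢
  rcases h with ⟨a1, a2, a3, a4⟩ <;> rcases h' with ⟨b1, b2, b3, b4⟩ | ⟨b1, b2, b3, b4⟩ | ⟨b1, b2, b3, b4⟩ <;>
    first
    | (exfalso; linarith)
    | (refine Or.inl ⟨?_, ?_, ?_, ?_⟩ <;> linarith)
    | (refine Or.inr ⟨?_, ?_, ?_, ?_⟩ <;> linarith)


theorem t34_13 (g : Good L C y0 y1 t0 t1) (h : crW L C y0 y1 t0 t1 (6 * C) 3 4 X Y)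
    (h' : crW L C y0 y1 t0 t1 (6 * C) 1 3 X Y) :
    cr L C y0 y1 t0 t1 0 3 X Y ∨ cr L C y0 y1 t0 t1 0 4 X Y := by
  obtain ⟨g1, g2, g3, g4, g5, g6, g7, g8⟩ := g
  simp only [cr, crW, bx] at h h' ⊢
  obtain ⟨⟨b5, b6, b7, b8⟩, h'⟩ := reg_cases h'
  rcases h with ⟨a1, a2, a3, a4⟩ <;> rcases h' with ⟨b1, b2, b3, b4⟩ | ⟨b1, b2, b3, b4⟩ | ⟨b1, b2, b3, b4⟩ <;>
    first
    | (exfalso; linarith)
    | (refine Or.inl ⟨?_, ?_, ?_, ?_⟩ <;> linarith)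
    | (refine Or.inr ⟨?_, ?_, ?_, ?_⟩ <;> linarith)


theorem t34_14 (g : Good L C y0 y1 t0 t1) (h : crW L C y0 y1 t0 t1 (6 * C) 3 4 X Y)
    (h' : crW L C y0 y1 t0 t1 (6 * C) 1 4 X Y) :
    cr L C y0 y1 t0 t1 0 3 X Y ∨ cr L C y0 y1 t0 t1 0 4 X Y := by
  obtain ⟨g1, g2, g3, g4, g5, g6, g7, g8⟩ := g
  simp only [cr, crW, bx] at h h' ⊢
  rcases h with ⟨a1, a2, a3, a4⟩ <;> rcases h' with ⟨b1, b2, b3, b4⟩ <;>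
    first
    | (exfalso; linarith)
    | (refine Or.inl ⟨?_, ?_, ?_, ?_⟩ <;> linarith)
    | (refine Or.inr ⟨?_, ?_, ?_, ?_⟩ <;> linarith)


theorem t34_23 (g : Good L C y0 y1 t0 t1) (h : crW L C y0 y1 t0 t1 (6 * C) 3 4 X Y)
    (h' : crW L C y0 y1 t0 t1 (6 * C) 2 3 X Y) :
    cr L C y0 y1 t0 t1 0 3 X Y ∨ cr L C y0 y1 t0 t1 0 4 X Y := by
  obtain ⟨g1, g2, g3, g4, g5, g6, g7, g8⟩ := g
  simp only [cr, crW, bx] at h h' ⊢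
  rcases h with ⟨a1, a2, a3, a4⟩ <;> rcases h' with ⟨b1, b2, b3, b4⟩ <;>
    first
    | (exfalso; linarith)
    | (refine Or.inl ⟨?_, ?_, ?_, ?_⟩ <;> linarith)
    | (refine Or.inr ⟨?_, ?_, ?_, ?_⟩ <;> linarith)


theorem t34_24 (g : Good L C y0 y1 t0 t1) (h : crW L C y0 y1 t0 t1 (6 * C) 3 4 X Y)
    (h' : crW L C y0 y1 t0 t1 (6 * C) 2 4 X Y) :
    cr L C y0 y1 t0 t1 0 3 X Y ∨ cr L C y0 y1 t0 t1 0 4 X Y := by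
  obtain ⟨g1, g2, g3, g4, g5, g6, g7, g8⟩ := g
  simp only [cr, crW, bx] at h h' ⊢
  rcases h with ⟨a1, a2, a3, a4⟩ <;> rcases h' with ⟨b1, b2, b3, b4⟩ <;>
    first
    | (exfalso; linarith)
    | (refine Or.inl ⟨?_, ?_, ?_, ?_⟩ <;> linarith)
    | (refine Or.inr ⟨?_, ?_, ?_, ?_⟩ <;> linarith)


theorem c01 (g : Good L C y0 y1 t0 t1) (k l : Fin 5) (hkl : k < l)
    (hne : ((0 : Fin 5), (1 : Fin 5)) ≠ (k, l))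
    (h : crW L C y0 y1 t0 t1 (6 * C) 0 1 X Y) (h' : crW L C y0 y1 t0 t1 (6 * C) k l X Y) :
    cr L C y0 y1 t0 t1 0 0 X Y ∨ cr L C y0 y1 t0 t1 0 1 X Y := by
  fin_cases k <;> fin_cases l <;> (try (exact absurd hkl (by decide))) <;>
    (try (exact absurd rfl hne))
  · exact t01_02 g h h'
  · exact t01_03 g h h'
  · exact t01_04 g h h'
  · exact t01_12 g h h'
  · exact t01_13 g h h'
  · exact t01_14 g h h'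
  · exact t01_23 g h h'
  · exact t01_24 g h h'
  · exact t01_34 g h h'


theorem c02 (g : Good L C y0 y1 t0 t1) (k l : Fin 5) (hkl : k < l)
    (hne : ((0 : Fin 5), (2 : Fin 5)) ≠ (k, l)) (h1 : ¬ (k = 1 ∧ l = 3))
    (h : crW L C y0 y1 t0 t1 (6 * C) 0 2 X Y) (h' : crW L C y0 y1 t0 t1 (6 * C) k l X Y) :
    cr L C y0 y1 t0 t1 0 0 X Y ∨ cr L C y0 y1 t0 t1 0 2 X Y := by
  fin_cases k <;> fin_cases l <;> (try (exact absurd hkl (by decide))) <;>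
    (try (exact absurd rfl hne)) <;> (try (exact absurd ⟨rfl, rfl⟩ h1))
  · exact t02_01 g h h'
  · exact t02_03 g h h'
  · exact t02_04 g h h'
  · exact t02_12 g h h'
  · exact t02_14 g h h'
  · exact t02_23 g h h'
  · exact t02_24 g h h'
  · exact t02_34 g h h'


theorem c03 (g : Good L C y0 y1 t0 t1) (k l : Fin 5) (hkl : k < l)
    (hne : ((0 : Fin 5), (3 : Fin 5)) ≠ (k, l))
    (h : crW L C y0 y1 t0 t1 (6 * C) 0 3 X Y) (h' : crW L C y0 y1 t0 t1 (6 * C) k l X Y) :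
    cr L C y0 y1 t0 t1 0 0 X Y ∨ cr L C y0 y1 t0 t1 0 3 X Y := by
  fin_cases k <;> fin_cases l <;> (try (exact absurd hkl (by decide))) <;>
    (try (exact absurd rfl hne))
  · exact t03_01 g h h'
  · exact t03_02 g h h'
  · exact t03_04 g h h'
  · exact t03_12 g h h'
  · exact t03_13 g h h'
  · exact t03_14 g h h'
  · exact t03_23 g h h'
  · exact t03_24 g h h'
  · exact t03_34 g h h'


theorem c04 (g : Good L C y0 y1 t0 t1) (k l : Fin 5) (hkl : k < l)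
    (hne : ((0 : Fin 5), (4 : Fin 5)) ≠ (k, l))
    (h : crW L C y0 y1 t0 t1 (6 * C) 0 4 X Y) (h' : crW L C y0 y1 t0 t1 (6 * C) k l X Y) :
    cr L C y0 y1 t0 t1 0 0 X Y ∨ cr L C y0 y1 t0 t1 0 4 X Y := by
  fin_cases k <;> fin_cases l <;> (try (exact absurd hkl (by decide))) <;>
    (try (exact absurd rfl hne))
  · exact t04_01 g h h'
  · exact t04_02 g h h'
  · exact t04_03 g h h'
  · exact t04_12 g h h'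
  · exact t04_13 g h h'
  · exact t04_14 g h h'
  · exact t04_23 g h h'
  · exact t04_24 g h h'
  · exact t04_34 g h h'


theorem c12 (g : Good L C y0 y1 t0 t1) (k l : Fin 5) (hkl : k < l)
    (hne : ((1 : Fin 5), (2 : Fin 5)) ≠ (k, l))
    (h : crW L C y0 y1 t0 t1 (6 * C) 1 2 X Y) (h' : crW L C y0 y1 t0 t1 (6 * C) k l X Y) :
    cr L C y0 y1 t0 t1 0 1 X Y ∨ cr L C y0 y1 t0 t1 0 2 X Y := by
  fin_cases k <;> fin_cases l <;> (try (exact absurd hkl (by decide))) <;>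
    (try (exact absurd rfl hne))
  · exact t12_01 g h h'
  · exact t12_02 g h h'
  · exact t12_03 g h h'
  · exact t12_04 g h h'
  · exact t12_13 g h h'
  · exact t12_14 g h h'
  · exact t12_23 g h h'
  · exact t12_24 g h h'
  · exact t12_34 g h h'


theorem c13 (g : Good L C y0 y1 t0 t1) (k l : Fin 5) (hkl : k < l)
    (hne : ((1 : Fin 5), (3 : Fin 5)) ≠ (k, l)) (h1 : ¬ (k = 0 ∧ l = 2))
    (h : crW L C y0 y1 t0 t1 (6 * C) 1 3 X Y) (h' : crW L C y0 y1 t0 t1 (6 * C) k l X Y) :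
    cr L C y0 y1 t0 t1 0 1 X Y ∨ cr L C y0 y1 t0 t1 0 3 X Y := by
  fin_cases k <;> fin_cases l <;> (try (exact absurd hkl (by decide))) <;>
    (try (exact absurd rfl hne)) <;> (try (exact absurd ⟨rfl, rfl⟩ h1))
  · exact t13_01 g h h'
  · exact t13_03 g h h'
  · exact t13_04 g h h'
  · exact t13_12 g h h'
  · exact t13_14 g h h'
  · exact t13_23 g h h'
  · exact t13_24 g h h'
  · exact t13_34 g h h'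


theorem c14 (g : Good L C y0 y1 t0 t1) (k l : Fin 5) (hkl : k < l)
    (hne : ((1 : Fin 5), (4 : Fin 5)) ≠ (k, l))
    (h : crW L C y0 y1 t0 t1 (6 * C) 1 4 X Y) (h' : crW L C y0 y1 t0 t1 (6 * C) k l X Y) :
    cr L C y0 y1 t0 t1 0 1 X Y ∨ cr L C y0 y1 t0 t1 0 4 X Y := by
  fin_cases k <;> fin_cases l <;> (try (exact absurd hkl (by decide))) <;>
    (try (exact absurd rfl hne))
  · exact t14_01 g h h'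
  · exact t14_02 g h h'
  · exact t14_03 g h h'
  · exact t14_04 g h h'
  · exact t14_12 g h h'
  · exact t14_13 g h h'
  · exact t14_23 g h h'
  · exact t14_24 g h h'
  · exact t14_34 g h h'


theorem c23 (g : Good L C y0 y1 t0 t1) (k l : Fin 5) (hkl : k < l)
    (hne : ((2 : Fin 5), (3 : Fin 5)) ≠ (k, l))
    (h : crW L C y0 y1 t0 t1 (6 * C) 2 3 X Y) (h' : crW L C y0 y1 t0 t1 (6 * C) k l X Y) :
    cr L C y0 y1 t0 t1 0 2 X Y ∨ cr L C y0 y1 t0 t1 0 3 X Y := by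
  fin_cases k <;> fin_cases l <;> (try (exact absurd hkl (by decide))) <;>
    (try (exact absurd rfl hne))
  · exact t23_01 g h h'
  · exact t23_02 g h h'
  · exact t23_03 g h h'
  · exact t23_04 g h h'
  · exact t23_12 g h h'
  · exact t23_13 g h h'
  · exact t23_14 g h h'
  · exact t23_24 g h h'
  · exact t23_34 g h h'


theorem c24 (g : Good L C y0 y1 t0 t1) (k l : Fin 5) (hkl : k < l)
    (hne : ((2 : Fin 5), (4 : Fin 5)) ≠ (k, l))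
    (h : crW L C y0 y1 t0 t1 (6 * C) 2 4 X Y) (h' : crW L C y0 y1 t0 t1 (6 * C) k l X Y) :
    cr L C y0 y1 t0 t1 0 2 X Y ∨ cr L C y0 y1 t0 t1 0 4 X Y := by
  fin_cases k <;> fin_cases l <;> (try (exact absurd hkl (by decide))) <;>
    (try (exact absurd rfl hne))
  · exact t24_01 g h h'
  · exact t24_02 g h h'
  · exact t24_03 g h h'
  · exact t24_04 g h h'
  · exact t24_12 g h h'
  · exact t24_13 g h h'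
  · exact t24_14 g h h'
  · exact t24_23 g h h'
  · exact t24_34 g h h'


theorem c34 (g : Good L C y0 y1 t0 t1) (k l : Fin 5) (hkl : k < l)
    (hne : ((3 : Fin 5), (4 : Fin 5)) ≠ (k, l))
    (h : crW L C y0 y1 t0 t1 (6 * C) 3 4 X Y) (h' : crW L C y0 y1 t0 t1 (6 * C) k l X Y) :
    cr L C y0 y1 t0 t1 0 3 X Y ∨ cr L C y0 y1 t0 t1 0 4 X Y := by
  fin_cases k <;> fin_cases l <;> (try (exact absurd hkl (by decide))) <;>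
    (try (exact absurd rfl hne))
  · exact t34_01 g h h'
  · exact t34_02 g h h'
  · exact t34_03 g h h'
  · exact t34_04 g h h'
  · exact t34_12 g h h'
  · exact t34_13 g h h'
  · exact t34_14 g h h'
  · exact t34_23 g h h'
  · exact t34_24 g h h'


theorem s_PLB : S_PLB := by
  intro L C y0 y1 t0 t1 X Y g i j k l hij hkl hne h1 h2 h h'
  fin_cases i <;> fin_cases j <;> (try (exact absurd hij (by decide)))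
  · exact c01 g k l hkl hne h h'
  · exact c02 g k l hkl hne (fun hh => h1 ⟨rfl, rfl, hh.1, hh.2⟩) h h'
  · exact c03 g k l hkl hne h h'
  · exact c04 g k l hkl hne h h'
  · exact c12 g k l hkl hne h h'
  · exact c13 g k l hkl hne (fun hh => h2 ⟨rfl, rfl, hh.1, hh.2⟩) h h'
  · exact c14 g k l hkl hne h h'
  · exact c23 g k l hkl hne h h'
  · exact c24 g k l hkl hne h h'
  · exact c34 g k l hkl hne h h'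

end Pool.Agent.L7h73.PM
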